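import Pool.Agent.Lib.P325sdp.PairA
import Pool.Agent.Lib.P325f1f.Dich.GameDefs

/-!
Module Obj (1.8h; black boxes PairA, ker_lin, rho_const, P325x.mean_cor_sq). The objective of the pair laws on the
long code game over the noise game. Here an edge is e = ((v, r), a, y, s); x = nrm v, x' = nrm (v + nz m r),
d = lab (v + nz m r) + lab v, the constraint of the noise game is the addition of d; the labeling c of Cu n gives the label
y (c x) to the source and (mix y s ((addRight d).symm (c x'))) + a to the target.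
PROOF. Fix e. On eqs x x' d (c x = c x' + d, i.e. (addRight d).symm (c x') = c x) the edge is satisfied if
(s (c x)).1.val ≠ 0. As pairL is a nonnegative combination, pairL T x x' (sat e) >= ker T (rho (x + x' + aff d 0)^2)
* avgL (eqs x x' d) (fun c => if (s (c x)).1.val = 0 then 0 else 1). x + x' + aff d 0 = nz m r + aff 0 ε for some ε
(nrm v = v + aff (lab v) (v 0), CharTwo), so by rho_const the kernel is ker T (rho (nz m r)^2). Average over s first: for
each c the average of [(s (c x)).1.val ≠ 0] is 1 - 1/t, so the average over s, a, y is ker T (rho (nz m r)^2) (1 - 1/t)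
(if eqs x x' d is empty then x = x', d ≠ 0, and rho (aff d 0) = 0, ker_zero). By ker_lin this is at least
(1 - 1/t) (1 - T (1 - rho (nz m r)^2)/2 - 2 (1/2)^T); average over r: mean_cor_sq gives mean rho^2 >= (1 - 2m/q)^2 >=
1 - 4 m/q. So the average is at least (1 - 1/t) (1 - 2 T m/q - 2 (1/2)^T).
-/

open scoped BigOperators

namespace Pool.Agent.Lib.P325sdp

open Pool.Agent.Lib.P325x (Pt Cu aff cor nrm nz lab)
open Pool.Agent.P325f1f.Dich (mix)

namespace ObjAux

open Pool.Agent.Lib.P325x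

theorem avgL_apply {Z : Type} (s : Finset Z) (F : Z → ℝ) :
    avgL s F = (s.card : ℝ)⁻¹ * ∑ c ∈ s, F c := by
  simp [avgL, LinearMap.sum_apply]

theorem avgL_mono {Z : Type} (s : Finset Z) (F G : Z → ℝ) (h : ∀ c ∈ s, F c ≤ G c) :
    avgL s F ≤ avgL s G := by
  rw [avgL_apply, avgL_apply]
  exact mul_le_mul_of_nonneg_left (Finset.sum_le_sum h) (by positivity)

theorem avgL_nonneg {Z : Type} (s : Finset Z) (F : Z → ℝ) (h : ∀ c, 0 ≤ F c) : 0 ≤ avgL s F := by
  rw [avgL_apply]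
  exact mul_nonneg (by positivity) (Finset.sum_nonneg fun c _ => h c)

theorem avgL_const {Z : Type} (s : Finset Z) (hs : s.Nonempty) (b : ℝ) :
    avgL s (fun _ => b) = b := by
  have h : (s.card : ℝ) ≠ 0 := by exact_mod_cast (Finset.card_pos.2 hs).ne'
  rw [avgL_apply, Finset.sum_const, nsmul_eq_mul, ← mul_assoc, inv_mul_cancel₀ h, one_mul]

theorem pairL_ge {n : ℕ} (T : ℕ) (hT : 1 ≤ T) (x x' : Cu n) (d : Pt n)
    (g : (Cu n → Pt n) → ℝ) (hg : ∀ c, 0 ≤ g c) :
    ker T (rho (x + x' + aff d 0) ^ 2) * avgL (eqs x x' d) g ≤ pairL T x x' g := by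
  have h1 : pairL T x x' g =
      (∑ d' : Pt n, ker T (rho (x + x' + aff d' 0) ^ 2) * avgL (eqs x x' d') g) +
      (1 - ∑ d' : Pt n, ker T (rho (x + x' + aff d' 0) ^ 2)) * avgL Finset.univ g := by
    rw [pairL, LinearMap.add_apply, LinearMap.sum_apply, LinearMap.smul_apply, smul_eq_mul]
    congr 1
  rw [h1]
  have h2 : ker T (rho (x + x' + aff d 0) ^ 2) * avgL (eqs x x' d) g ≤
      ∑ d' : Pt n, ker T (rho (x + x' + aff d' 0) ^ 2) * avgL (eqs x x' d') g :=
    Finset.single_le_sum (f := fun d' : Pt n =>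
      ker T (rho (x + x' + aff d' 0) ^ 2) * avgL (eqs x x' d') g)
      (fun d' _ => mul_nonneg (ker_nonneg T hT _ (sq_nonneg _)) (avgL_nonneg _ _ hg))
      (Finset.mem_univ d)
  have h3 : 0 ≤ (1 - ∑ d' : Pt n, ker T (rho (x + x' + aff d' 0) ^ 2)) * avgL Finset.univ g :=
    mul_nonneg (sub_nonneg.2 (ker_sum_le T hT (x + x'))) (avgL_nonneg _ _ hg)
  linarith

theorem rho_nrm {n : ℕ} (v w : Cu n) :
    rho (nrm v + nrm (v + w) + aff (lab (v + w) + lab v) 0) ^ 2 = rho w ^ 2 := by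
  have e1 : aff (lab (v + w) + lab v) 0 +
      (aff (lab v) (v 0) + aff (lab (v + w)) ((v + w) 0)) = aff 0 (w 0) := by
    rw [← aff_add, ← aff_add]
    have e2 : lab (v + w) + lab v + (lab v + lab (v + w)) = 0 := by
      calc lab (v + w) + lab v + (lab v + lab (v + w))
          = (lab (v + w) + lab (v + w)) + (lab v + lab v) := by abel
        _ = 0 := by rw [pt_add_self, pt_add_self, add_zero]
    have e3 : 0 + (v 0 + (v + w) 0) = w 0 := by
      rw [zero_add, Pi.add_apply, ← add_assoc, CharTwo.add_self_eq_zero, zero_add]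
    rw [e2, e3]
  have h : nrm v + nrm (v + w) + aff (lab (v + w) + lab v) 0 = w + aff 0 (w 0) := by
    calc nrm v + nrm (v + w) + aff (lab (v + w) + lab v) 0
        = (v + v) + w + (aff (lab (v + w) + lab v) 0 +
          (aff (lab v) (v 0) + aff (lab (v + w)) ((v + w) 0))) := by
          rw [nrm, nrm]
          abel
      _ = _ := by rw [cu_add_self, zero_add, e1]
  rw [h, rho_const]

theorem sum_eval {ι β : Type} [Fintype ι] [DecidableEq ι] [Fintype β] (i : ι) (F : β → ℝ) :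
    (∑ s : ι → β, F (s i)) * (Fintype.card β : ℝ) = (∑ b, F b) * (Fintype.card (ι → β) : ℝ) := by
  have h1 : ∑ s : ι → β, F (s i) = ∑ p : β × ({j // j ≠ i} → β), F p.1 := by
    rw [← Equiv.sum_comp (Equiv.funSplitAt i β)]
    rfl
  have h2 : Fintype.card (ι → β) = Fintype.card β * Fintype.card ({j // j ≠ i} → β) := by
    rw [← Fintype.card_prod, Fintype.card_congr (Equiv.funSplitAt i β)]
  rw [h1, h2, Fintype.sum_prod_type]
  simp only [Finset.sum_const, Finset.card_univ, nsmul_eq_mul]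
  rw [← Finset.mul_sum]
  push_cast
  ring

theorem sum_mark (t k : ℕ) [NeZero k] (ht : 1 ≤ t) {ι : Type} [Fintype ι] [DecidableEq ι] (i : ι) :
    ∑ s : ι → Fin t × ZMod k, (if (s i).1.val = 0 then (0 : ℝ) else 1) =
      (1 - 1 / (t : ℝ)) * (Fintype.card (ι → Fin t × ZMod k) : ℝ) := by
  have h1 := sum_eval (β := Fin t × ZMod k) i (fun b => if b.1.val = 0 then (0 : ℝ) else 1)
  have hk : (k : ℝ) ≠ 0 := by exact_mod_cast (NeZero.ne k)
  have ht0 : (t : ℝ) ≠ 0 := by
    have : t ≠ 0 := by omega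
    exact_mod_cast this
  have h2 : ∑ b : Fin t × ZMod k, (if b.1.val = 0 then (0 : ℝ) else 1) = ((t : ℝ) - 1) * k := by
    rw [Fintype.sum_prod_type]
    have h5 : ∀ u : Fin t, ∑ _z : ZMod k, (if u.val = 0 then (0 : ℝ) else 1) =
        k * (if u.val = 0 then (0 : ℝ) else 1) := by
      intro u
      rw [Finset.sum_const, Finset.card_univ, ZMod.card, nsmul_eq_mul]
    refine (Finset.sum_congr rfl fun u _ => h5 u).trans ?_
    rw [← Finset.mul_sum]
    obtain ⟨t', rfl⟩ : ∃ t', t = t' + 1 := ⟨t - 1, by omega⟩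
    rw [Fin.sum_univ_succ]
    simp
    ring
  have h3 : (Fintype.card (Fin t × ZMod k) : ℝ) = t * k := by
    rw [Fintype.card_prod, Fintype.card_fin, ZMod.card]
    push_cast
    rfl
  rw [h2, h3] at h1
  have h4 : (t : ℝ) * k ≠ 0 := mul_ne_zero ht0 hk
  refine mul_right_cancel₀ h4 ?_
  rw [h1]
  field_simp

theorem sum_avg {n : ℕ} (t k : ℕ) [NeZero k] (ht : 1 ≤ t) (x : Cu n) (E : Finset (Cu n → Pt n))
    (hE : E.Nonempty) :
    ∑ s : Pt n → Fin t × ZMod k, avgL E (fun c => if (s (c x)).1.val = 0 then (0 : ℝ) else 1) =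
      (1 - 1 / (t : ℝ)) * (Fintype.card (Pt n → Fin t × ZMod k) : ℝ) := by
  have h1 : ∑ s : Pt n → Fin t × ZMod k,
      avgL E (fun c => if (s (c x)).1.val = 0 then (0 : ℝ) else 1) =
      avgL E (fun c => ∑ s : Pt n → Fin t × ZMod k,
        (if (s (c x)).1.val = 0 then (0 : ℝ) else 1)) := by
    rw [avgL_apply, Finset.sum_comm, Finset.mul_sum]
    exact Finset.sum_congr rfl fun s _ => avgL_apply _ _
  rw [h1]
  have h2 : (fun c : Cu n → Pt n => ∑ s : Pt n → Fin t × ZMod k,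
        (if (s (c x)).1.val = 0 then (0 : ℝ) else 1)) =
      fun _ => (1 - 1 / (t : ℝ)) * (Fintype.card (Pt n → Fin t × ZMod k) : ℝ) := by
    funext c
    exact sum_mark t k ht (c x)
  rw [h2, avgL_const E hE]

theorem ker_eqs {n : ℕ} (T : ℕ) (x x' : Cu n) (d : Pt n) (h : ¬ (eqs x x' d).Nonempty) :
    ker T (rho (x + x' + aff d 0) ^ 2) = 0 := by
  have h1 : x = x' := by
    by_contra hne
    exact h (eqs_nonempty x x' hne d)
  subst h1
  have h2 : d ≠ 0 := by
    intro h2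
    subst h2
    apply h
    refine ⟨fun _ => 0, ?_⟩
    rw [eqs, Finset.mem_filter]
    exact ⟨Finset.mem_univ _, by rw [add_zero]⟩
  rw [cu_add_self, zero_add, rho_aff, if_neg h2]
  have h3 : (0 : ℝ) ^ 2 = 0 := by norm_num
  rw [h3, ker_zero]

theorem step (n q m t T k : ℕ) [NeZero k] (ht : 1 ≤ t) (hT : 1 ≤ T)
    (v : Cu n) (r : Pt n → Fin q) (a : ZMod k) (y : Pt n → ZMod k) :
    ker T (rho (nz m r) ^ 2) *
      ((1 - 1 / (t : ℝ)) * (Fintype.card (Pt n → Fin t × ZMod k) : ℝ)) ≤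
    ∑ s : Pt n → Fin t × ZMod k,
      pairL T (nrm v) (nrm (v + nz m r)) (fun c =>
          if y (c (nrm v)) + a =
            mix y s ((Equiv.addRight (lab (v + nz m r) + lab v)).symm
              (c (nrm (v + nz m r)))) + a then (1 : ℝ) else 0) := by
  obtain ⟨x, hx⟩ : ∃ x, x = nrm v := ⟨_, rfl⟩
  obtain ⟨x', hx'⟩ : ∃ x', x' = nrm (v + nz m r) := ⟨_, rfl⟩
  obtain ⟨d, hd⟩ : ∃ d, d = lab (v + nz m r) + lab v := ⟨_, rfl⟩
  have hrho : rho (x + x' + aff d 0) ^ 2 = rho (nz m r) ^ 2 := by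
    rw [hx, hx', hd, rho_nrm]
  rw [← hx, ← hx', ← hd, ← hrho]
  have h1 : ∀ s : Pt n → Fin t × ZMod k,
      ker T (rho (x + x' + aff d 0) ^ 2) *
        avgL (eqs x x' d) (fun c => if (s (c x)).1.val = 0 then (0 : ℝ) else 1) ≤
      pairL T x x' (fun c =>
          if y (c x) + a = mix y s ((Equiv.addRight d).symm (c x')) + a then (1 : ℝ) else 0) := by
    intro s
    refine le_trans ?_ (pairL_ge T hT x x' d _ ?_)
    · refine mul_le_mul_of_nonneg_left ?_ (ker_nonneg T hT _ (sq_nonneg _))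
      refine avgL_mono _ _ _ fun c hc => ?_
      rw [eqs, Finset.mem_filter] at hc
      have hc2 : (Equiv.addRight d).symm (c x') = c x := by
        rw [Equiv.symm_apply_eq, Equiv.coe_addRight, hc.2]
        show c x' = c x' + d + d
        rw [add_assoc, pt_add_self, add_zero]
      rw [hc2]
      split_ifs with h1 h2 h3
      · exact zero_le_one
      · exact le_refl _
      · exact le_refl _
      · exfalso
        apply h3
        rw [mix, if_neg h1]
    · intro c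
      split_ifs
      · exact zero_le_one
      · exact le_refl _
  refine le_trans (le_of_eq ?_) (Finset.sum_le_sum fun s _ => h1 s)
  rw [← Finset.mul_sum]
  by_cases hE : (eqs x x' d).Nonempty
  · rw [sum_avg t k ht x _ hE]
  · rw [ker_eqs T x x' d hE, zero_mul, zero_mul]

theorem sum_ker (n q m T : ℕ) (hq : 0 < q) (hm : 2 * m ≤ q) (hT : 1 ≤ T) :
    (1 - 2 * T * ((m : ℝ) / q) - 2 * (1 / 2) ^ T) * (Fintype.card (Pt n → Fin q) : ℝ) ≤
      ∑ r : Pt n → Fin q, ker T (rho (nz m r) ^ 2) := by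
  have hqr : (0 : ℝ) < q := by exact_mod_cast hq
  have : NeZero q := ⟨hq.ne'⟩
  have hcard : (0 : ℝ) < (Fintype.card (Pt n → Fin q) : ℝ) := by
    exact_mod_cast Fintype.card_pos
  have h2n : (0 : ℝ) < 2 ^ n := by positivity
  have h2n1 : (1 : ℝ) ≤ 2 ^ n := one_le_pow₀ (by norm_num)
  have hmean := mean_cor_sq (n := n) (q := q) (m := m) hq (by omega)
  rw [mean, div_eq_iff hcard.ne'] at hmean
  have hmr : 2 * (m : ℝ) / q ≤ 1 := by
    rw [div_le_one hqr]
    exact_mod_cast hm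
  have hm0 : 0 ≤ 2 * (m : ℝ) / q := by positivity
  obtain ⟨u, hu⟩ : ∃ u, u = (1 - 2 * (m : ℝ) / q) ^ 2 := ⟨_, rfl⟩
  have hu1 : u ≤ 1 := by
    rw [hu]
    exact pow_le_one₀ (by linarith) (by linarith)
  have hu2 : 1 - 4 * ((m : ℝ) / q) ≤ u := by
    rw [hu]
    have e : 2 * (m : ℝ) / q = 2 * ((m : ℝ) / q) := by ring
    rw [e]
    nlinarith [sq_nonneg ((m : ℝ) / q)]
  rw [← hu] at hmean
  have hrho : ∑ r : Pt n → Fin q, rho (nz m r) ^ 2 =
      (u + (1 - u) / 2 ^ n) * (Fintype.card (Pt n → Fin q) : ℝ) := by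
    have h1 : ∀ r : Pt n → Fin q, rho (nz m r) ^ 2 = cor (nz m r) ^ 2 / ((2 : ℝ) ^ n) ^ 2 := by
      intro r
      rw [rho, div_pow]
    rw [Finset.sum_congr rfl fun r _ => h1 r, ← Finset.sum_div, hmean]
    field_simp
  have hlow : (1 - 4 * ((m : ℝ) / q)) * (Fintype.card (Pt n → Fin q) : ℝ) ≤
      ∑ r : Pt n → Fin q, rho (nz m r) ^ 2 := by
    rw [hrho]
    refine mul_le_mul_of_nonneg_right ?_ hcard.le
    have : 0 ≤ (1 - u) / 2 ^ n := div_nonneg (by linarith) h2n.le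
    linarith
  have hk : ∀ r : Pt n → Fin q, 1 - T * (1 - rho (nz m r) ^ 2) / 2 - 2 * (1 / 2) ^ T ≤
      ker T (rho (nz m r) ^ 2) := by
    intro r
    refine ker_lin T hT _ (sq_nonneg _) ?_
    rw [← sq_abs]
    exact pow_le_one₀ (abs_nonneg _) (abs_rho_le _)
  refine le_trans ?_ (Finset.sum_le_sum fun r _ => hk r)
  have e : ∑ r : Pt n → Fin q, (1 - T * (1 - rho (nz m r) ^ 2) / 2 - 2 * (1 / 2) ^ T) =
      (1 - (T : ℝ) / 2 - 2 * (1 / 2) ^ T) * (Fintype.card (Pt n → Fin q) : ℝ) +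
        (T : ℝ) / 2 * ∑ r : Pt n → Fin q, rho (nz m r) ^ 2 := by
    have e1 : ∀ r : Pt n → Fin q, (1 - T * (1 - rho (nz m r) ^ 2) / 2 - 2 * (1 / 2) ^ T : ℝ) =
        (1 - (T : ℝ) / 2 - 2 * (1 / 2) ^ T) + (T : ℝ) / 2 * rho (nz m r) ^ 2 := by
      intro r
      ring
    rw [Finset.sum_congr rfl fun r _ => e1 r, Finset.sum_add_distrib, Finset.sum_const,
      Finset.card_univ, nsmul_eq_mul, ← Finset.mul_sum, mul_comm ((Fintype.card (Pt n → Fin q) : ℝ))]
  rw [e]
  have hT0 : (0 : ℝ) ≤ (T : ℝ) / 2 := by positivity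
  have h5 := mul_le_mul_of_nonneg_left hlow hT0
  calc (1 - 2 * T * ((m : ℝ) / q) - 2 * (1 / 2) ^ T) * (Fintype.card (Pt n → Fin q) : ℝ)
      = (1 - (T : ℝ) / 2 - 2 * (1 / 2) ^ T) * (Fintype.card (Pt n → Fin q) : ℝ) +
        (T : ℝ) / 2 * ((1 - 4 * ((m : ℝ) / q)) * (Fintype.card (Pt n → Fin q) : ℝ)) := by ring
    _ ≤ _ := by linarith

end ObjAux

open ObjAux in
theorem obj (n q m t T k : ℕ) [NeZero k] (hq : 0 < q) (hm : 2 * m ≤ q) (ht : 1 ≤ t) (hT : 1 ≤ T) :
    (1 - 1 / (t : ℝ)) * (1 - 2 * T * ((m : ℝ) / q) - 2 * (1 / 2) ^ T) *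
      (Fintype.card ((Cu n × (Pt n → Fin q)) × ZMod k × (Pt n → ZMod k) ×
        (Pt n → Fin t × ZMod k)) : ℝ) ≤
      ∑ e : (Cu n × (Pt n → Fin q)) × ZMod k × (Pt n → ZMod k) × (Pt n → Fin t × ZMod k),
        pairL T (nrm e.1.1) (nrm (e.1.1 + nz m e.1.2)) (fun c =>
          if e.2.2.1 (c (nrm e.1.1)) + e.2.1 =
            mix e.2.2.1 e.2.2.2 ((Equiv.addRight (lab (e.1.1 + nz m e.1.2) + lab e.1.1)).symm
              (c (nrm (e.1.1 + nz m e.1.2)))) + e.2.1 then (1 : ℝ) else 0) := by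
  have hstep : (1 - 1 / (t : ℝ)) * (1 - 2 * T * ((m : ℝ) / q) - 2 * (1 / 2) ^ T) *
      (Fintype.card ((Cu n × (Pt n → Fin q)) × ZMod k × (Pt n → ZMod k) ×
        (Pt n → Fin t × ZMod k)) : ℝ) ≤
      ∑ _v : Cu n, ∑ r : Pt n → Fin q, ∑ _a : ZMod k, ∑ _y : Pt n → ZMod k,
        ker T (rho (nz m r) ^ 2) *
          ((1 - 1 / (t : ℝ)) * (Fintype.card (Pt n → Fin t × ZMod k) : ℝ)) := by
    have ht' : (0 : ℝ) ≤ 1 - 1 / (t : ℝ) := by
      have h1 : (1 : ℝ) ≤ t := by exact_mod_cast ht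
      have h2 : 1 / (t : ℝ) ≤ 1 := by
        rw [div_le_one (by linarith)]
        exact h1
      linarith
    have h1 := sum_ker n q m T hq hm hT
    simp only [Finset.sum_const, Finset.card_univ, nsmul_eq_mul]
    rw [Fintype.card_prod, Fintype.card_prod, Fintype.card_prod, Fintype.card_prod]
    have h2 : ∑ r : Pt n → Fin q, ((Fintype.card (ZMod k) : ℝ) *
        ((Fintype.card (Pt n → ZMod k) : ℝ) * (ker T (rho (nz m r) ^ 2) *
          ((1 - 1 / (t : ℝ)) * (Fintype.card (Pt n → Fin t × ZMod k) : ℝ))))) =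
        (∑ r : Pt n → Fin q, ker T (rho (nz m r) ^ 2)) * ((Fintype.card (ZMod k) : ℝ) *
          ((Fintype.card (Pt n → ZMod k) : ℝ) *
            ((1 - 1 / (t : ℝ)) * (Fintype.card (Pt n → Fin t × ZMod k) : ℝ)))) := by
      rw [Finset.sum_mul]
      exact Finset.sum_congr rfl fun r _ => by ring
    rw [h2]
    have h3 : (0 : ℝ) ≤ (Fintype.card (Cu n) : ℝ) * ((Fintype.card (ZMod k) : ℝ) *
          ((Fintype.card (Pt n → ZMod k) : ℝ) *
            ((1 - 1 / (t : ℝ)) * (Fintype.card (Pt n → Fin t × ZMod k) : ℝ)))) := by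
      positivity
    have h4 := mul_le_mul_of_nonneg_right h1 h3
    push_cast
    calc _ = (1 - 2 * T * ((m : ℝ) / q) - 2 * (1 / 2) ^ T) *
          (Fintype.card (Pt n → Fin q) : ℝ) * ((Fintype.card (Cu n) : ℝ) *
            ((Fintype.card (ZMod k) : ℝ) * ((Fintype.card (Pt n → ZMod k) : ℝ) *
            ((1 - 1 / (t : ℝ)) * (Fintype.card (Pt n → Fin t × ZMod k) : ℝ))))) := by ring
      _ ≤ _ := h4
      _ = _ := by ring
  refine hstep.trans ?_
  rw [Fintype.sum_prod_type, Fintype.sum_prod_type]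
  refine Finset.sum_le_sum fun v _ => Finset.sum_le_sum fun r _ => ?_
  rw [Fintype.sum_prod_type]
  refine Finset.sum_le_sum fun a _ => ?_
  rw [Fintype.sum_prod_type]
  refine Finset.sum_le_sum fun y _ => ?_
  exact step n q m t T k ht hT v r a y

end Pool.Agent.Lib.P325sdp
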