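import Pool.Agent.Lib.P325f1f.Dich.Games

/-!
Module SndK (1h; black box sound_gen in P325f1f Dich/Games.lean). Soundness of the long code game with all
translations of ZMod k.
PROOF. θ = min δ 1 / 20, β = (θ^2)^(4 t) > 0, k = ⌈4 / (δ β)⌉₊ + 1, c = 1/(k β) <= δ/4, σ a = Equiv.addRight a. Condition hc of
sound_gen: 𝔼_a ∑_ω [β < μ ω and β < ν (ω + a)] min (μ ω) (ν (ω + a)) <= (1/k) ∑_ω [β < μ ω] ∑_a ν (ω + a) =
(1/k) #{ω | β < μ ω} <= 1/(k β) (β #{..} <= ∑ μ = 1). So the value is at most c + 5 θ + M value <= δ/2 + M value.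
-/

open scoped BigOperators

namespace Pool.Agent.Lib.P325sdp

open Pool.Agent.P325f1f.Dich

theorem SndKAux.core (k : ℕ) [NeZero k] (β : ℝ) (hβ : 0 < β) (μ ν : ZMod k → ℝ) (hμ : ∀ ω, 0 ≤ μ ω)
    (hν : ∀ ω, 0 ≤ ν ω) (sμ : ∑ ω, μ ω = 1) (sν : ∑ ω, ν ω = 1) :
    (𝔼 a : ZMod k, ∑ ω, if β < μ ω ∧ β < ν (Equiv.addRight a ω)
      then min (μ ω) (ν (Equiv.addRight a ω)) else 0) ≤ 1 / ((k : ℝ) * β) := by
  have hk : (0 : ℝ) < k := by exact_mod_cast Nat.pos_of_ne_zero (NeZero.ne k)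
  rw [Finset.expect_sum_comm]
  have h1 : ∀ ω : ZMod k, (𝔼 a : ZMod k, if β < μ ω ∧ β < ν (Equiv.addRight a ω)
      then min (μ ω) (ν (Equiv.addRight a ω)) else 0) ≤ μ ω * (1 / ((k : ℝ) * β)) := by
    intro ω
    have hs : (𝔼 a : ZMod k, ν (ω + a)) = 1 / (k : ℝ) := by
      rw [Fintype.expect_eq_sum_div_card, ZMod.card]
      have e : ∑ a : ZMod k, ν (ω + a) = ∑ a, ν a := Equiv.sum_comp (Equiv.addLeft ω) ν
      rw [e, sν]
    by_cases hb : β < μ ω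
    · calc (𝔼 a : ZMod k, if β < μ ω ∧ β < ν (Equiv.addRight a ω)
            then min (μ ω) (ν (Equiv.addRight a ω)) else 0) ≤ 𝔼 a : ZMod k, ν (ω + a) := by
            refine Finset.expect_le_expect (fun a _ => ?_)
            split_ifs with h
            · exact min_le_right _ _
            · exact hν _
        _ = 1 / (k : ℝ) := hs
        _ = β * (1 / ((k : ℝ) * β)) := by
            field_simp
        _ ≤ μ ω * (1 / ((k : ℝ) * β)) := mul_le_mul_of_nonneg_right hb.le (by positivity)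
    · have h0 : ∀ a : ZMod k, (if β < μ ω ∧ β < ν (Equiv.addRight a ω)
          then min (μ ω) (ν (Equiv.addRight a ω)) else 0) = 0 := fun a => if_neg (fun h => hb h.1)
      rw [Finset.expect_congr rfl (fun a _ => h0 a), Finset.expect_const_zero]
      exact mul_nonneg (hμ ω) (by positivity)
  refine (Finset.sum_le_sum (fun ω _ => h1 ω)).trans ?_
  rw [← Finset.sum_mul, sμ, one_mul]

theorem sndK (t : ℕ) (ht : 1 ≤ t) (δ : ℝ) (hδ : 0 < δ) :
    ∃ (k : ℕ) (_ : NeZero k) (M : ℝ), ∀ (U W Λ ι : Type) [Fintype Λ] [DecidableEq Λ] [Nonempty Λ]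
      [Fintype ι] [Nonempty ι] (I : Game U W Λ ι),
      (longGame t (fun a : ZMod k => Equiv.addRight a) I).value ≤ δ / 2 + M * I.value := by
  obtain ⟨θ, hθ⟩ : ∃ θ : ℝ, θ = min δ 1 / 20 := ⟨_, rfl⟩
  have hm : 0 < min δ 1 := lt_min hδ one_pos
  have hθ0 : 0 < θ := by
    rw [hθ]
    positivity
  have hθ1 : θ ≤ 1 := by
    rw [hθ]
    have := min_le_right δ 1
    linarith
  have h5 : 5 * θ ≤ δ / 4 := by
    rw [hθ]
    have := min_le_left δ 1
    linarith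
  obtain ⟨β, hβe⟩ : ∃ β : ℝ, β = (θ ^ 2) ^ (4 * t) := ⟨_, rfl⟩
  have hβ : 0 < β := by
    rw [hβe]
    positivity
  obtain ⟨k, hk⟩ : ∃ k : ℕ, k = ⌈4 / (δ * β)⌉₊ + 1 := ⟨_, rfl⟩
  haveI hkn : NeZero k := ⟨by omega⟩
  have hk0 : (0 : ℝ) < k := by exact_mod_cast Nat.pos_of_ne_zero (NeZero.ne k)
  have hk1 : 4 / (δ * β) ≤ k := by
    rw [hk]
    push_cast
    have := Nat.le_ceil (4 / (δ * β))
    linarith
  have hc4 : 1 / ((k : ℝ) * β) ≤ δ / 4 := by
    rw [div_le_iff₀ (by positivity)] at hk1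
    rw [div_le_iff₀ (by positivity)]
    linarith
  obtain ⟨M, hM⟩ := sound_gen (fun a : ZMod k => Equiv.addRight a) t ht θ hθ0 hθ1
    (1 / ((k : ℝ) * β)) (by positivity) (by
      intro μ ν hμ hν sμ sν
      rw [← hβe]
      exact SndKAux.core k β hβ μ ν hμ hν sμ sν)
  refine ⟨k, hkn, M, ?_⟩
  intro U W Λ ι _ _ _ _ _ I
  refine (hM U W Λ ι I).trans ?_
  linarith

end Pool.Agent.Lib.P325sdp
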