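import Pool.Agent.Lib.P325sdp.Defs

/-!
Module Tr (1h). Transfer of a game and a functional along an equivalence of the vertex sets.
PROOF. ψ z = z ∘ Sum.map e e : (Fin N ⊕ Fin N → Ω) → (U ⊕ U → Ω) is a bijection, ψ' its inverse. E' f = E (f ∘ ψ')
(E.comp (LinearMap.funLeft ℝ ℝ ψ')). If f depends on D then f ∘ ψ' depends on D.image (Sum.map e.symm e.symm). The value is the
same supremum (Equiv.iSup_comp or two inequalities with le_ciSup), satFrac of the new game at ψ-related labelings is
satFrac of the old one by rfl/congr.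
-/

open scoped BigOperators

namespace Pool.Agent.Lib.P325sdp

open Pool.Agent.Lib.P325x (Game)
open Pool.Agent.Lib.P325h (IsLocalExpectation)

theorem transfer {U ι : Type} [Fintype U] [DecidableEq U] [Fintype ι] (k : ℕ) [NeZero k] (r : ℕ)
    (src dst : ι → U) (b : ι → ZMod k) (δ s : ℝ)
    (hval : (Game.mk src dst (fun e => Equiv.addRight (b e))).value ≤ δ)
    (E : ((U ⊕ U → ZMod k) → ℝ) →ₗ[ℝ] ℝ) (hE : IsLocalExpectation r E) (hP : MomentPSD E)
    (hs : s ≤ E (fun z => (Game.mk src dst (fun e => Equiv.addRight (b e))).satFrac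
      (fun u => z (Sum.inl u)) (fun w => z (Sum.inr w)))) :
    ∃ (N : ℕ) (src' dst' : ι → Fin N) (E' : ((Fin N ⊕ Fin N → ZMod k) → ℝ) →ₗ[ℝ] ℝ),
      (Game.mk src' dst' (fun e => Equiv.addRight (b e))).value ≤ δ ∧
      IsLocalExpectation r E' ∧ MomentPSD E' ∧
      s ≤ E' (fun z => (Game.mk src' dst' (fun e => Equiv.addRight (b e))).satFrac
        (fun u => z (Sum.inl u)) (fun w => z (Sum.inr w))) := by
  classical
  obtain ⟨e⟩ : Nonempty (U ≃ Fin (Fintype.card U)) := ⟨Fintype.equivFin U⟩
  set N := Fintype.card U with hN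
  have hsat : ∀ (x y : Fin N → ZMod k),
      (Game.mk (fun i => e (src i)) (fun i => e (dst i)) (fun i => Equiv.addRight (b i))).satFrac x y =
        (Game.mk src dst (fun e => Equiv.addRight (b e))).satFrac (fun u => x (e u)) (fun u => y (e u)) :=
    fun x y => rfl
  refine ⟨N, fun i => e (src i), fun i => e (dst i),
    E.comp (LinearMap.funLeft ℝ ℝ (fun (z : U ⊕ U → ZMod k) (p : Fin N ⊕ Fin N) =>
      z (Sum.map e.symm e.symm p))), ?_, ⟨?_, ?_⟩, ?_, ?_⟩
  · refine le_trans ?_ hval
    unfold Game.value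
    refine ciSup_le fun p => ?_
    rw [hsat]
    exact le_ciSup (f := fun p : (U → ZMod k) × (U → ZMod k) =>
      (Game.mk src dst (fun e => Equiv.addRight (b e))).satFrac p.1 p.2)
      (Set.finite_range _).bddAbove (fun u => p.1 (e u), fun u => p.2 (e u))
  · exact hE.one
  · intro f D hD hf hf0
    refine hE.nonneg _ (D.image (Sum.map e.symm e.symm)) (Finset.card_image_le.trans hD) ?_
      (fun z => hf0 _)
    intro x y hxy
    exact hf fun p hp => hxy _ (Finset.mem_coe.2 (Finset.mem_image_of_mem _ (Finset.mem_coe.1 hp)))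
  · intro c h
    have h1 := hP c (fun q => h (Sum.map e e q))
    have h2 : (fun z : U ⊕ U → ZMod k => (c + ∑ q, h (Sum.map e e q) (z q)) ^ 2) =
        fun z : U ⊕ U → ZMod k => (c + ∑ p, h p (z (Sum.map e.symm e.symm p))) ^ 2 := by
      funext z
      congr 2
      refine Fintype.sum_equiv (Equiv.sumCongr e e) _ _ fun q => ?_
      rcases q with q | q <;> simp
    rw [h2] at h1
    exact h1
  · refine hs.trans (le_of_eq ?_)
    show E _ = E _
    congr 1
    funext z
    show _ = (Game.mk (fun i => e (src i)) (fun i => e (dst i)) (fun i => Equiv.addRight (b i))).satFrac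
      (fun u => z (Sum.inl (e.symm u))) (fun w => z (Sum.inr (e.symm w)))
    rw [hsat]
    simp only [Equiv.symm_apply_apply]

end Pool.Agent.Lib.P325sdp
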