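import Pool.Agent.Lib.P325sdp.Fam
import Pool.Agent.Lib.P325sdp.Obj
import Pool.Agent.Lib.P325sdp.SndK
import Pool.Agent.Lib.P325sdp.Tr
import Pool.Agent.Lib.P325x.Main

/-!
Module Base (2.5h; black boxes fam, obj, sndK, transfer, P325x.noiseGame_value). The base family.
PROOF. WLOG ε <= 1 (for ε > 1 use ε = 1). t = ⌈4/ε⌉₊ (1/t <= ε/4, t >= 4). sndK t (δ): k, M. Let r be given, r' = max r 2,
κ = ε/4. T >= 1 with 4^r' k^r' 4 r'^2 (113/128)^T <= κ and 2 (1/2)^T <= ε/8 (powers tend to 0). q = ⌈16 T/ε⌉₊ + 2, m = 1: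
2 T m/q <= ε/8, 2 m <= q. ρ = 1 - 2/q < 1, l with ρ^l <= 1/3; δ1 = δ/(2 (|M| + 1)) > 0; n >= 1 with
((2 : ℝ)^n)⁻¹ <= δ1^(2 l): noiseGame_value: value (noiseGame n q 1) <= δ1. As a game of P325f1f Dich (same three fields, the
value is defined by the same formula) its long code game J = longGame t (fun a => addRight a) has value <= δ/2 + M δ1 <=
δ (0 <= value <= δ1, M value <= |M| δ1 <= δ/2). U = Cu n × (Pt n → ZMod k) on both sides; src, dst as in longGame, b e = e.2.1,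
ι = the edges (nonempty). The P325x game with these has the same value. fam with V = U ⊕ U, bs = Sum.elim Prod.fst
Prod.fst, y = Sum.elim Prod.snd Prod.snd, r', T, κ: E. E satFrac = (1/|ι|) ∑_e E [e satisfied] (linearity) >=
(1/|ι|) (1 - κ) ∑_e pairL .. (..) (the indicator depends on {src, dst}) and for labelings given by c the indicator is the one
in obj (dst string at i is addRight a (mix y s (perm.symm i)) = mix .. + a). So E satFrac >= (1 - κ) (1 - 1/t)
(1 - ε/8 - ε/8) >= (1 - ε/4)^3 >= 1 - ε. transfer (r <= r': IsLocalExpectation r from r').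
-/

open scoped BigOperators

namespace Pool.Agent.Lib.P325sdp

open Pool.Agent.Lib.P325x (Game)
open Pool.Agent.Lib.P325h (IsLocalExpectation)

namespace BaseAux

/-- The values of the two kinds of games with the same fields agree. -/
theorem value_eq {U W Ω ι : Type} [Fintype ι] (src : ι → U) (dst : ι → W) (perm : ι → Equiv.Perm Ω) :
    (Game.mk src dst perm).value = (Pool.Agent.P325f1f.Dich.Game.mk src dst perm).value := rfl

/-- The choice of the number `T` of pairs. -/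
theorem exists_T (C κ η : ℝ) (hκ : 0 < κ) (hη : 0 < η) :
    ∃ T : ℕ, 1 ≤ T ∧ C * (113 / 128) ^ T ≤ κ ∧ 2 * (1 / 2 : ℝ) ^ T ≤ η := by
  have h1 : Filter.Tendsto (fun T : ℕ => C * (113 / 128 : ℝ) ^ T) Filter.atTop (nhds (C * 0)) :=
    (tendsto_pow_atTop_nhds_zero_of_lt_one (by norm_num) (by norm_num)).const_mul C
  have h2 : Filter.Tendsto (fun T : ℕ => 2 * (1 / 2 : ℝ) ^ T) Filter.atTop (nhds (2 * 0)) :=
    (tendsto_pow_atTop_nhds_zero_of_lt_one (by norm_num) (by norm_num)).const_mul 2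
  rw [mul_zero] at h1 h2
  obtain ⟨T, ⟨hT1, hT2⟩, hT3⟩ := (((h1.eventually_le_const hκ).and (h2.eventually_le_const hη)).and
    (Filter.eventually_ge_atTop 1)).exists
  exact ⟨T, hT3, hT1, hT2⟩

theorem exists_pow_le (ρ η : ℝ) (h1 : ρ < 1) (hη : 0 < η) : ∃ l : ℕ, ρ ^ l ≤ η := by
  obtain ⟨l, hl⟩ := exists_pow_lt_of_lt_one hη h1
  exact ⟨l, hl.le⟩

theorem exists_n (η : ℝ) (hη : 0 < η) : ∃ n : ℕ, ((2 : ℝ) ^ n)⁻¹ ≤ η := by
  obtain ⟨n, hn⟩ := exists_pow_lt_of_lt_one hη (show (1 / 2 : ℝ) < 1 by norm_num)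
  refine ⟨n, le_trans (le_of_eq ?_) hn.le⟩
  rw [one_div, inv_pow]

/-- Satisfied fractions as averages of indicators, under a linear functional. -/
theorem E_satFrac {U W Ω ι Z : Type} [Fintype ι] [DecidableEq Ω] (I : Game U W Ω ι)
    (E : (Z → ℝ) →ₗ[ℝ] ℝ) (x : Z → U → Ω) (y : Z → W → Ω) :
    E (fun z => I.satFrac (x z) (y z)) =
      (∑ e, E (fun z => if I.perm e (x z (I.src e)) = y z (I.dst e) then (1 : ℝ) else 0)) /
        (Fintype.card ι : ℝ) := by
  have h1 : (fun z => I.satFrac (x z) (y z)) = ((Fintype.card ι : ℝ)⁻¹) •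
      ∑ e, (fun z => if I.perm e (x z (I.src e)) = y z (I.dst e) then (1 : ℝ) else 0) := by
    funext z
    rw [Pi.smul_apply, Finset.sum_apply, smul_eq_mul, Finset.sum_boole, Game.satFrac,
      div_eq_inv_mul]
    congr!
  rw [h1, map_smul, map_sum, smul_eq_mul, div_eq_inv_mul]

theorem final_ineq (ε κ a b c : ℝ) (hε0 : 0 ≤ ε) (hε1 : ε ≤ 1) (hκ : κ = ε / 4) (ha : a ≤ ε / 4)
    (hb : b ≤ ε / 8) (hc : c ≤ ε / 8) :
    1 - ε ≤ (1 - κ) * ((1 - a) * (1 - b - c)) := by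
  have h1 : 1 - ε / 4 ≤ 1 - b - c := by linarith
  have h2 : 1 - ε / 4 ≤ 1 - a := by linarith
  have h3 : (1 - ε / 4) * (1 - ε / 4) ≤ (1 - a) * (1 - b - c) :=
    mul_le_mul h2 h1 (by linarith) (by linarith)
  calc 1 - ε ≤ (1 - κ) * ((1 - ε / 4) * (1 - ε / 4)) := by
        rw [hκ]
        nlinarith [sq_nonneg ε, mul_nonneg hε0 (sq_nonneg ε)]
    _ ≤ _ := mul_le_mul_of_nonneg_left h3 (by rw [hκ]; linarith)

end BaseAux

open BaseAux

open Pool.Agent.Lib.P325x (Pt Cu nrm nz lab noiseGame) in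
open Pool.Agent.P325f1f.Dich (mix longGame) in
theorem baseS (ε δ : ℝ) (hε : 0 < ε) (hδ : 0 < δ) : ∃ k : ℕ, 0 < k ∧ ∀ r : ℕ,
    ∃ (n : ℕ) (ι : Type) (_ : Fintype ι) (src dst : ι → Fin n) (b : ι → ZMod k)
      (E : ((Fin n ⊕ Fin n → ZMod k) → ℝ) →ₗ[ℝ] ℝ), Nonempty ι ∧
      (Game.mk src dst (fun e => Equiv.addRight (b e))).value ≤ δ ∧
      IsLocalExpectation r E ∧ MomentPSD E ∧
      1 - ε ≤ E (fun z => (Game.mk src dst (fun e => Equiv.addRight (b e))).satFrac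
        (fun u => z (Sum.inl u)) (fun w => z (Sum.inr w))) := by
  classical
  set ε' : ℝ := min ε 1 with hε'
  have hε0 : 0 < ε' := lt_min hε one_pos
  have hε1 : ε' ≤ 1 := min_le_right _ _
  have hεε : 1 - ε ≤ 1 - ε' := by linarith [min_le_left ε 1]
  set t : ℕ := ⌈4 / ε'⌉₊ with ht
  have ht4 : 4 / ε' ≤ (t : ℝ) := Nat.le_ceil _
  have ht0 : (0 : ℝ) < t := lt_of_lt_of_le (by positivity) ht4
  have ht1 : 1 ≤ t := by exact_mod_cast ht0
  have hta : 1 / (t : ℝ) ≤ ε' / 4 := by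
    rw [div_le_iff₀ ht0]
    rw [div_le_iff₀ hε0] at ht4
    linarith
  obtain ⟨k, hk, M, hM⟩ := sndK t ht1 δ hδ
  refine ⟨k, NeZero.pos k, fun r => ?_⟩
  set r' : ℕ := max r 2 with hr'
  set κ : ℝ := ε' / 4 with hκ
  have hκ0 : 0 < κ := by positivity
  obtain ⟨T, hT1, hT2, hT3⟩ := exists_T (4 ^ r' * (k : ℝ) ^ r' * (4 * (r' : ℝ) ^ 2)) κ (ε' / 8)
    hκ0 (by positivity)
  have hT0 : (0 : ℝ) < T := by exact_mod_cast hT1
  set q : ℕ := ⌈16 * T / ε'⌉₊ + 2 with hq
  have hq0 : 0 < q := by omega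
  have hq0' : (0 : ℝ) < q := by exact_mod_cast hq0
  have hq2 : 16 * T / ε' ≤ (q : ℝ) := by
    rw [hq]
    push_cast
    linarith [Nat.le_ceil (16 * T / ε')]
  have hqb : 2 * T * (((1 : ℕ) : ℝ) / q) ≤ ε' / 8 := by
    rw [div_le_iff₀ hε0] at hq2
    rw [Nat.cast_one, mul_one_div, div_le_iff₀ hq0']
    linarith
  have hm : 2 * 1 ≤ q := by omega
  have hρ0 : 0 ≤ 1 - 2 * ((1 : ℕ) : ℝ) / q := by
    rw [sub_nonneg, div_le_one hq0']
    exact_mod_cast hm
  have hρ1 : 1 - 2 * ((1 : ℕ) : ℝ) / q < 1 := by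
    have : 0 < 2 * ((1 : ℕ) : ℝ) / q := by positivity
    linarith
  obtain ⟨l, hl⟩ := exists_pow_le _ (1 / 3) hρ1 (by norm_num)
  set δ1 : ℝ := δ / (2 * (|M| + 1)) with hδ1
  have hM0 : 0 ≤ |M| := abs_nonneg M
  have hδ10 : 0 < δ1 := by positivity
  obtain ⟨n, hn⟩ := exists_n (δ1 ^ (2 * l)) (by positivity)
  have hval0 := Pool.Agent.Lib.P325x.noiseGame_value (n := n) (m := 1) hq0 hm hl hδ10.le hn
  have : NeZero q := ⟨hq0.ne'⟩
  have hval1 : (Pool.Agent.P325f1f.Dich.Game.mk (noiseGame n q 1).src (noiseGame n q 1).dst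
      (noiseGame n q 1).perm).value ≤ δ1 := by
    rw [← value_eq]
    exact hval0
  have hval2 : 0 ≤ (Pool.Agent.P325f1f.Dich.Game.mk (noiseGame n q 1).src (noiseGame n q 1).dst
      (noiseGame n q 1).perm).value := by
    refine le_trans ?_ (le_ciSup (f := fun p : (Cu n → Pt n) × (Cu n → Pt n) =>
      (Pool.Agent.P325f1f.Dich.Game.mk (noiseGame n q 1).src (noiseGame n q 1).dst
      (noiseGame n q 1).perm).satFrac p.1 p.2) (Set.finite_range _).bddAbove (0, 0))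
    unfold Pool.Agent.P325f1f.Dich.Game.satFrac
    positivity
  set I : Pool.Agent.P325f1f.Dich.Game (Cu n) (Cu n) (Pt n) (Cu n × (Pt n → Fin q)) :=
    Pool.Agent.P325f1f.Dich.Game.mk (noiseGame n q 1).src (noiseGame n q 1).dst
      (noiseGame n q 1).perm with hI
  have hJ := hM (Cu n) (Cu n) (Pt n) (Cu n × (Pt n → Fin q)) I
  have hJ' : (longGame t (fun a : ZMod k => Equiv.addRight a) I).value ≤ δ := by
    refine hJ.trans ?_
    have h1 : M * I.value ≤ |M| * δ1 := mul_le_mul (le_abs_self M) hval1 hval2 hM0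
    have h2 : |M| * δ1 ≤ δ / 2 := by
      rw [hδ1, mul_div_assoc', div_le_div_iff₀ (by positivity) (by norm_num)]
      nlinarith
    linarith
  -- the local expectation
  have hcard : (Fintype.card (ZMod k) : ℝ) = k := by rw [ZMod.card]
  obtain ⟨E, hE1, hE2, hE3⟩ := fam (n := n) (V := (Cu n × (Pt n → ZMod k)) ⊕ (Cu n × (Pt n → ZMod k)))
    (Ω := ZMod k) (Sum.elim Prod.fst Prod.fst) (Sum.elim Prod.snd Prod.snd) r' T
    (le_max_right _ _) hT1 κ (by rw [hκ]; linarith) (by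
      rw [hcard]
      refine le_trans (le_of_eq ?_) hT2
      ring)
  have hobj := obj n q 1 t T k hq0 hm ht1 hT1
  set J := longGame t (fun a : ZMod k => Equiv.addRight a) I with hJdef
  have hsat : 1 - ε ≤ E (fun z => (Game.mk J.src J.dst
      (fun e => Equiv.addRight e.2.1)).satFrac (fun u => z (Sum.inl u)) (fun w => z (Sum.inr w))) := by
    rw [E_satFrac]
    have hcp : (0 : ℝ) < (Fintype.card ((Cu n × (Pt n → Fin q)) × ZMod k × (Pt n → ZMod k) ×
        (Pt n → Fin t × ZMod k)) : ℝ) := by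
      have : Nonempty (Fin t × ZMod k) := ⟨(⟨0, ht1⟩, 0)⟩
      exact_mod_cast Fintype.card_pos
    rw [le_div_iff₀ hcp]
    refine le_trans ?_ (Finset.sum_le_sum fun e _ => hE3 (Sum.inl (J.src e)) (Sum.inr (J.dst e))
      (fun z => if (Equiv.addRight e.2.1) (z (Sum.inl (J.src e))) = z (Sum.inr (J.dst e))
        then (1 : ℝ) else 0) ?_ ?_)
    · rw [← Finset.mul_sum]
      refine le_trans ?_ (mul_le_mul_of_nonneg_left hobj (by rw [hκ]; linarith))
      rw [← mul_assoc]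
      refine mul_le_mul_of_nonneg_right ?_ hcp.le
      exact hεε.trans (final_ineq ε' κ (1 / t) _ _ hε0.le hε1 hκ hta hqb hT3)
    · intro z z' hzz'
      have h1 : z (Sum.inl (J.src e)) = z' (Sum.inl (J.src e)) := hzz' _ (by simp)
      have h2 : z (Sum.inr (J.dst e)) = z' (Sum.inr (J.dst e)) := hzz' _ (by simp)
      simp only [h1, h2]
    · intro z
      split_ifs
      · exact zero_le_one
      · exact le_rfl
  obtain ⟨N, src', dst', E', g1, g2, g3, g4⟩ := transfer k r J.src J.dst (fun e => e.2.1) δ (1 - ε)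
    (by
      have h := value_eq J.src J.dst (fun e => Equiv.addRight e.2.1)
      rw [h]
      exact hJ')
    E ⟨hE1.one, fun f D hD => hE1.nonneg f D (hD.trans (le_max_left _ _))⟩ hE2 hsat
  refine ⟨N, _, inferInstance, src', dst', (fun e => e.2.1), E', ?_, g1, g2, g3, g4⟩
  have : Nonempty (Fin t × ZMod k) := ⟨(⟨0, ht1⟩, 0)⟩
  infer_instance

end Pool.Agent.Lib.P325sdp
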