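import Pool.Agent.Lib.P325sdp.Defs

/-!
Module Rho (1.5h; black boxes in P325x Affine.lean: sum_sg_dot, cor_aff, aff_add, cu_add_self, sg facts in
Cube.lean). Correlations of functions on the small cube.
PROOF. K = 2^n = the number of points. abs_rho_le: |cor f| <= K. rho_aff: cor_aff. rho_parseval:
∑_d (∑_a sg(f a) sg(d·a))^2 = ∑_{a,b} sg(f a) sg(f b) ∑_d sg(d·(a+b)) = K ∑_a 1 = K^2 (sum_sg_dot with
dotProduct_comm). rho_const: sg (f a + ε) = sg (f a) sg ε. rho_add: let s, t = ±1 with s cor f = |cor f|,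
t cor g = |cor g|. For ±1 numbers 1 - (s sg f a)(t sg g a) <= (1 - s sg f a) + (1 - t sg g a); sum over a:
K - s t cor (f + g) <= (K - |cor f|) + (K - |cor g|). rho_unique: if d ≠ d', rho_add for f = x + aff d 0,
g = x + aff d' 0 gives |rho (aff (d + d') 0)| >= 1/2, but d + d' ≠ 0 so it is 0.
al_spec: definition of al (choose_spec) and rho_unique. al_symm: x + x' = x' + x. al_add: f = x + x' + aff (al x x') 0,
g = x' + x'' + aff (al x' x'') 0 have |rho| >= 7/8, f + g = x + x'' + aff (al x x' + al x' x'') 0, rho_add, al_spec.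
al_self: rho (x + x + aff 0 0) = rho 0 = 1.
-/

open scoped BigOperators

namespace Pool.Agent.Lib.P325sdp

open Pool.Agent.Lib.P325x (Pt Cu aff cor)

variable {n : ℕ}

namespace RhoAux

open Pool.Agent.Lib.P325x

theorem pow_pos' (n : ℕ) : (0 : ℝ) < 2 ^ n := by positivity

theorem card_pt (n : ℕ) : ∑ _a : Pt n, (1 : ℝ) = 2 ^ n := by
  simp [ZMod.card]

theorem abs_sg (t : ZMod 2) : |sg t| = 1 := by
  rcases zmod_two_cases t with h | h <;> rw [h]
  · rw [sg_zero, abs_one]
  · rw [sg_one, abs_neg, abs_one]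

theorem sg_cases (t : ZMod 2) : sg t = 1 ∨ sg t = -1 := by
  rcases zmod_two_cases t with h | h <;> rw [h]
  · exact Or.inl sg_zero
  · exact Or.inr sg_one

theorem abs_cor_le (f : Cu n) : |cor f| ≤ 2 ^ n := by
  rw [← card_pt n, cor]
  refine (Finset.abs_sum_le_sum_abs _ _).trans (Finset.sum_le_sum fun a _ => ?_)
  rw [abs_sg]

theorem sign_exists (r : ℝ) : ∃ s : ℝ, (s = 1 ∨ s = -1) ∧ s * r = |r| := by
  rcases le_total 0 r with h | h
  · exact ⟨1, Or.inl rfl, by rw [abs_of_nonneg h, one_mul]⟩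
  · exact ⟨-1, Or.inr rfl, by rw [abs_of_nonpos h, neg_one_mul]⟩

theorem pm_ineq (u v : ℝ) (hu : u = 1 ∨ u = -1) (hv : v = 1 ∨ v = -1) :
    u + v - 1 ≤ u * v := by
  rcases hu with rfl | rfl <;> rcases hv with rfl | rfl <;> norm_num

theorem pm_mul (u v : ℝ) (hu : u = 1 ∨ u = -1) (hv : v = 1 ∨ v = -1) :
    u * v = 1 ∨ u * v = -1 := by
  rcases hu with rfl | rfl <;> rcases hv with rfl | rfl <;> norm_num

theorem cor_add_ge (f g : Cu n) : |cor f| + |cor g| - 2 ^ n ≤ |cor (f + g)| := by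
  obtain ⟨s, hs, hs1⟩ := sign_exists (cor f)
  obtain ⟨t, ht, ht1⟩ := sign_exists (cor g)
  have h1 : |cor f| + |cor g| - 2 ^ n ≤ (s * t) * cor (f + g) := by
    rw [← hs1, ← ht1, ← card_pt n, cor, cor, cor, Finset.mul_sum, Finset.mul_sum, Finset.mul_sum,
      ← Finset.sum_add_distrib, ← Finset.sum_sub_distrib]
    refine Finset.sum_le_sum fun a _ => ?_
    have h2 := pm_ineq _ _ (pm_mul s _ hs (sg_cases (f a))) (pm_mul t _ ht (sg_cases (g a)))
    rw [Pi.add_apply, sg_add]
    calc _ ≤ _ := h2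
      _ = _ := by ring
  refine h1.trans ((le_abs_self _).trans ?_)
  have h3 : |s * t| = 1 := by
    rcases pm_mul s t hs ht with h | h <;> rw [h]
    · exact abs_one
    · rw [abs_neg, abs_one]
  rw [abs_mul, h3, one_mul]

theorem abs_rho (f : Cu n) : |rho f| = |cor f| / 2 ^ n := by
  rw [rho, abs_div, abs_of_pos (pow_pos' n)]

end RhoAux

open RhoAux Pool.Agent.Lib.P325x

theorem abs_rho_le (f : Cu n) : |rho f| ≤ 1 := by
  rw [abs_rho, div_le_one (pow_pos' n)]
  exact abs_cor_le f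

theorem rho_aff (d : Pt n) : rho (aff d 0) = if d = 0 then 1 else 0 := by
  rw [rho, cor_aff]
  split_ifs
  · exact div_self (pow_pos' n).ne'
  · exact zero_div _

theorem rho_parseval (f : Cu n) : ∑ d : Pt n, rho (f + aff d 0) ^ 2 = 1 := by
  have h0 := (pow_pos' n).ne'
  have h1 : ∀ d : Pt n, rho (f + aff d 0) ^ 2 =
      (∑ a : Pt n, ∑ b : Pt n, sg (f a) * sg (f b) * sg ((a + b) ⬝ᵥ d)) / (2 ^ n) ^ 2 := by
    intro d
    rw [rho, div_pow, cor, sq (∑ a, sg ((f + aff d 0) a)), Finset.sum_mul_sum]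
    congr 1
    refine Finset.sum_congr rfl fun a _ => Finset.sum_congr rfl fun b _ => ?_
    simp only [Pi.add_apply, sg_add, aff, add_zero, add_dotProduct]
    rw [dotProduct_comm d a, dotProduct_comm d b]
    ring
  rw [Finset.sum_congr rfl fun d _ => h1 d, ← Finset.sum_div, Finset.sum_comm]
  have h2 : ∀ a : Pt n, ∑ d : Pt n, ∑ b : Pt n, sg (f a) * sg (f b) * sg ((a + b) ⬝ᵥ d) =
      2 ^ n := by
    intro a
    rw [Finset.sum_comm]
    have h3 : ∀ b : Pt n, ∑ d : Pt n, sg (f a) * sg (f b) * sg ((a + b) ⬝ᵥ d) =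
        if a = b then (2 : ℝ) ^ n else 0 := by
      intro b
      rw [← Finset.mul_sum, sum_sg_dot]
      by_cases h : a = b
      · rw [h, pt_add_self, if_pos rfl, if_pos rfl, sg_mul_self, one_mul]
      · have h4 : a + b ≠ 0 := by
          intro h5
          apply h
          calc a = a + (b + b) := by rw [pt_add_self, add_zero]
            _ = b := by rw [← add_assoc, h5, zero_add]
        rw [if_neg h4, if_neg h, mul_zero]
    rw [Finset.sum_congr rfl fun b _ => h3 b, Finset.sum_ite_eq, if_pos (Finset.mem_univ _)]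
  rw [Finset.sum_congr rfl fun a _ => h2 a]
  have h4 : ∑ _a : Pt n, (2 : ℝ) ^ n = (2 ^ n) ^ 2 := by
    rw [sq, ← mul_one (∑ _a : Pt n, (2 : ℝ) ^ n)]
    conv_rhs => rw [← card_pt n]
    simp [ZMod.card]
  rw [h4, div_self (pow_ne_zero 2 h0)]

theorem rho_const (f : Cu n) (ε : ZMod 2) : rho (f + aff 0 ε) ^ 2 = rho f ^ 2 := by
  have h1 : cor (f + aff 0 ε) = cor f * sg ε := by
    rw [cor, cor, Finset.sum_mul]
    refine Finset.sum_congr rfl fun a _ => ?_
    rw [Pi.add_apply, sg_add, aff, zero_dotProduct, zero_add]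
  rw [rho, rho, h1, div_pow, div_pow, mul_pow, sq (sg ε), sg_mul_self, mul_one]

theorem rho_add (f g : Cu n) : |rho f| + |rho g| - 1 ≤ |rho (f + g)| := by
  rw [abs_rho, abs_rho, abs_rho, ← div_self (pow_pos' n).ne', ← add_div, ← sub_div]
  exact div_le_div_of_nonneg_right (cor_add_ge f g) (pow_pos' n).le

theorem rho_unique (x : Cu n) (d d' : Pt n) (h : 3 / 4 ≤ |rho (x + aff d 0)|)
    (h' : 3 / 4 ≤ |rho (x + aff d' 0)|) : d = d' := by
  by_contra hne
  have h1 := rho_add (x + aff d 0) (x + aff d' 0)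
  have h2 : x + aff d 0 + (x + aff d' 0) = aff (d + d') 0 := by
    calc x + aff d 0 + (x + aff d' 0) = (x + x) + (aff d 0 + aff d' 0) := by abel
      _ = aff (d + d') 0 := by rw [cu_add_self, zero_add, ← aff_add, add_zero]
  have h3 : d + d' ≠ 0 := by
    intro h3
    apply hne
    calc d = d + (d' + d') := by rw [pt_add_self, add_zero]
      _ = d' := by rw [← add_assoc, h3, zero_add]
  rw [h2, rho_aff, if_neg h3, abs_zero] at h1
  linarith

theorem al_spec (x x' : Cu n) (d : Pt n) (h : 3 / 4 ≤ |rho (x + x' + aff d 0)|) : al x x' = d := by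
  have h1 : ∃ d : Pt n, 3 / 4 ≤ |rho (x + x' + aff d 0)| := ⟨d, h⟩
  have h2 : al x x' = h1.choose := by
    rw [al, dif_pos h1]
  rw [h2]
  exact rho_unique (x + x') _ _ h1.choose_spec h

theorem al_symm (x x' : Cu n) : al x' x = al x x' := by
  rw [al, al, add_comm x' x]

theorem al_self (x : Cu n) : al x x = 0 := by
  apply al_spec
  have h1 : x + x + aff 0 0 = aff 0 0 := by rw [cu_add_self, zero_add]
  rw [h1, rho_aff, if_pos rfl, abs_one]
  norm_num

theorem al_add (x x' x'' : Cu n) (h : 7 / 8 ≤ |rho (x + x' + aff (al x x') 0)|)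
    (h' : 7 / 8 ≤ |rho (x' + x'' + aff (al x' x'') 0)|) :
    3 / 4 ≤ |rho (x + x'' + aff (al x x' + al x' x'') 0)| ∧ al x x'' = al x x' + al x' x'' := by
  have h1 := rho_add (x + x' + aff (al x x') 0) (x' + x'' + aff (al x' x'') 0)
  have h2 : x + x' + aff (al x x') 0 + (x' + x'' + aff (al x' x'') 0) =
      x + x'' + aff (al x x' + al x' x'') 0 := by
    calc x + x' + aff (al x x') 0 + (x' + x'' + aff (al x' x'') 0)
        = x + x'' + (x' + x') + (aff (al x x') 0 + aff (al x' x'') 0) := by abel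
      _ = _ := by rw [cu_add_self, add_zero, ← aff_add, add_zero]
  rw [h2] at h1
  have h3 : 3 / 4 ≤ |rho (x + x'' + aff (al x x' + al x' x'') 0)| := by linarith
  exact ⟨h3, al_spec _ _ _ h3⟩

end Pool.Agent.Lib.P325sdp
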