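import Pool.Agent.Lib.P325sdp.Defs

/-!
Module SigP (0.8h). The probability that a function agrees on random pairs.
PROOF. The number of ω with agr ω f is N^T, N = #{(a, b) | f a = f b} (Fintype.piFinset / Finset.prod_univ_sum), and
[f a = f b] = (1 + sg (f a) sg (f b))/2, so N = (K^2 + cor f ^2)/2 with K = 2^n, hence N / K^2 = (1 + rho f ^2)/2.
The number of all ω is (K^2)^T.
-/

open scoped BigOperators

namespace Pool.Agent.Lib.P325sdp

open Pool.Agent.Lib.P325x (Pt Cu aff cor)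

namespace SigPAux

open Pool.Agent.Lib.P325x

theorem ind_eq (s t : ZMod 2) : (if s = t then (1 : ℝ) else 0) = (1 + sg s * sg t) / 2 := by
  rcases zmod_two_cases s with rfl | rfl <;> rcases zmod_two_cases t with rfl | rfl
  · rw [if_pos rfl, sg_zero]; norm_num
  · rw [if_neg (by decide), sg_zero, sg_one]; norm_num
  · rw [if_neg (by decide), sg_zero, sg_one]; norm_num
  · rw [if_pos rfl, sg_one]; norm_num

theorem card_pairs {n : ℕ} (f : Cu n) :
    (Nat.card {p : Pt n × Pt n // f p.1 = f p.2} : ℝ) =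
      (1 + rho f ^ 2) / 2 * ((2 : ℝ) ^ n * 2 ^ n) := by
  classical
  rw [Nat.card_eq_fintype_card, Fintype.card_subtype, Finset.card_filter]
  push_cast
  have h1 : ∀ p : Pt n × Pt n, (if f p.1 = f p.2 then (1 : ℝ) else 0) =
      (1 + sg (f p.1) * sg (f p.2)) / 2 := fun p => ind_eq _ _
  rw [Finset.sum_congr rfl fun p _ => h1 p, Fintype.sum_prod_type]
  have h2 : ∑ a : Pt n, ∑ b : Pt n, (1 + sg (f a) * sg (f b)) / 2 =
      ((2 : ℝ) ^ n * 2 ^ n + cor f * cor f) / 2 := by
    have h3 : (∑ a : Pt n, ∑ b : Pt n, (1 : ℝ)) = (2 : ℝ) ^ n * 2 ^ n := by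
      simp [ZMod.card]
    have h4 : ∑ a : Pt n, ∑ b : Pt n, sg (f a) * sg (f b) = cor f * cor f := by
      unfold cor
      rw [Finset.sum_mul_sum]
    rw [← h3, ← h4, ← Finset.sum_add_distrib, Finset.sum_div]
    refine Finset.sum_congr rfl fun a _ => ?_
    rw [← Finset.sum_add_distrib, Finset.sum_div]
  rw [h2]
  unfold rho
  have hK : (2 : ℝ) ^ n ≠ 0 := by positivity
  field_simp

end SigPAux

theorem sig_prob {n : ℕ} (T : ℕ) (f : Cu n) :
    (Nat.card {ω : Fin T → Pt n × Pt n // agr ω f} : ℝ) =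
      ((1 + rho f ^ 2) / 2) ^ T * (Fintype.card (Fin T → Pt n × Pt n) : ℝ) := by
  classical
  have h1 : Nat.card {ω : Fin T → Pt n × Pt n // agr ω f} =
      (Nat.card {p : Pt n × Pt n // f p.1 = f p.2}) ^ T := by
    unfold agr
    rw [Nat.card_congr (Equiv.subtypePiEquivPi
      (p := fun (_ : Fin T) (q : Pt n × Pt n) => f q.1 = f q.2)), Nat.card_fun]
    simp
  rw [h1]
  push_cast
  rw [SigPAux.card_pairs, mul_pow]
  congr 1
  simp [ZMod.card]

end Pool.Agent.Lib.P325sdp
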