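import Pool.Agent.Lib.P325P.Defs
import Pool.Agent.Lib.P325h.Defs
import Pool.Agent.Lib.P325x.KV

/-!
P325sdp: Sherali-Adams solutions with positive semidefinite second moments. Definitions.
-/

open scoped BigOperators

namespace Pool.Agent.Lib.P325sdp

open Pool.Agent.Lib.P325x (Pt Cu aff cor)

/-- The second moments of the functional `E` are positive semidefinite: `E (q ^ 2) ≥ 0` for all
functions `q` that are sums of functions of single labels. -/
def MomentPSD {V Ω : Type} [Fintype V] (E : ((V → Ω) → ℝ) →ₗ[ℝ] ℝ) : Prop :=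
  ∀ (c : ℝ) (h : V → Ω → ℝ), 0 ≤ E (fun z => (c + ∑ p, h p (z p)) ^ 2)

/-- A normalised nonnegative functional. -/
structure IsPos {Z : Type} (L : (Z → ℝ) →ₗ[ℝ] ℝ) : Prop where
  one : L (fun _ => 1) = 1
  nonneg : ∀ f, (∀ z, 0 ≤ f z) → 0 ≤ L f

/-- The average over the finite set `s`. -/
noncomputable def avgL {Z : Type} (s : Finset Z) : (Z → ℝ) →ₗ[ℝ] ℝ :=
  (s.card : ℝ)⁻¹ • ∑ c ∈ s, LinearMap.proj c

/-- The solutions `c : B → G` of the equations `c x = c x' + al x x'` for `x, x' ∈ X` with `R x x'`. -/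
noncomputable def sol {B G : Type} [Fintype B] [Fintype G] [Add G] (R : B → B → Prop)
    (al : B → B → G) (X : Finset B) : Finset (B → G) := by
  classical
  exact Finset.univ.filter (fun c => ∀ x ∈ X, ∀ x' ∈ X, R x x' → c x = c x' + al x x')

/-- The normalised sum of the signs of `f`. -/
noncomputable def rho {n : ℕ} (f : Cu n) : ℝ := cor f / 2 ^ n

/-- The kernel `(((1 + s) / 2) ^ T - (1 / 2) ^ T) / (1 - (1 / 2) ^ T)`. -/
noncomputable def ker (T : ℕ) (s : ℝ) : ℝ := (((1 + s) / 2) ^ T - (1 / 2) ^ T) / (1 - (1 / 2) ^ T)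

/-- The function `f` agrees on all the pairs of `ω`. -/
def agr {n T : ℕ} (ω : Fin T → Pt n × Pt n) (f : Cu n) : Prop := ∀ j, f (ω j).1 = f (ω j).2

/-- The alignment of `x` and `x'`: the label `d` with `|rho (x + x' + aff d 0)| ≥ 3 / 4`, if there is
one. -/
noncomputable def al {n : ℕ} (x x' : Cu n) : Pt n := by
  classical
  exact if h : ∃ d : Pt n, 3 / 4 ≤ |rho (x + x' + aff d 0)| then h.choose else 0

/-- `x` and `x'` are close and agree on `ω`. -/
def Rel {n T : ℕ} (ω : Fin T → Pt n × Pt n) (x x' : Cu n) : Prop :=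
  3 / 4 ≤ |rho (x + x' + aff (al x x') 0)| ∧ agr ω (x + x' + aff (al x x') 0)

/-- All related points of `X` are very close. -/
def Good {n T : ℕ} (ω : Fin T → Pt n × Pt n) (X : Finset (Cu n)) : Prop :=
  ∀ x ∈ X, ∀ x' ∈ X, Rel ω x x' → 7 / 8 ≤ |rho (x + x' + aff (al x x') 0)|

/-- The local labelings of `X` given `ω`. -/
noncomputable def solX {n T : ℕ} (ω : Fin T → Pt n × Pt n) (X : Finset (Cu n)) :
    Finset (Cu n → Pt n) := by
  classical
  exact if Good ω X then sol (Rel ω) al X else Finset.univ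

/-- The local law of the labels of `X`. -/
noncomputable def locL {n : ℕ} (T : ℕ) (X : Finset (Cu n)) : ((Cu n → Pt n) → ℝ) →ₗ[ℝ] ℝ :=
  (Fintype.card (Fin T → Pt n × Pt n) : ℝ)⁻¹ • ∑ ω : Fin T → Pt n × Pt n, avgL (solX ω X)

/-- The labelings with `c x = c x' + d`. -/
noncomputable def eqs {n : ℕ} (x x' : Cu n) (d : Pt n) : Finset (Cu n → Pt n) := by
  classical
  exact Finset.univ.filter (fun c => c x = c x' + d)

/-- The law of the labels of `x` and `x'` with the exact kernel. -/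
noncomputable def pairL {n : ℕ} (T : ℕ) (x x' : Cu n) : ((Cu n → Pt n) → ℝ) →ₗ[ℝ] ℝ :=
  (∑ d : Pt n, ker T (rho (x + x' + aff d 0) ^ 2) • avgL (eqs x x' d)) +
    (1 - ∑ d : Pt n, ker T (rho (x + x' + aff d 0) ^ 2)) • avgL Finset.univ

end Pool.Agent.Lib.P325sdp
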