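import Pool.Agent.Lib.P325sdp.PairA

/-!
Module PairC (black boxes PairA, KerF, Rho, SigP). The exact law of a pair is close to the local law.
PROOF. x = x': locL T {x} = avgL univ (for every ω Good, al x x = 0, so the equation c x = c x + 0 is trivial) =
pairL T x x. Let x ≠ x', d0 = al x x', ρ_d = rho (x + x' + aff d 0), A_d = avgL (eqs x x' d) F, U = avgL univ F, all in
[-1, 1]. For ω with Rel ω x x' and |ρ_{d0}| >= 7/8 the set is Good and solX ω {x, x'} = eqs x x' d0 (al_self, al_symm); for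
every other ω solX = univ (either not Good, or no relation between x and x'). So locL F = P A_{d0} + (1 - P) U,
P = ((1 + ρ_{d0}^2)/2)^T if |ρ_{d0}| >= 7/8 (sig_prob), else 0. Hence the difference is
(P - ker_{d0})(A_{d0} - U) - ∑_{d ≠ d0} ker_d (A_d - U), at most 2 |P - ker_{d0}| + 2 ∑_{d ≠ d0} ker_d.
Case |ρ_{d0}| >= 7/8: |P - ker_{d0}| <= 2 (1/2)^T (ker_le, ker_ge); for d ≠ d0 |ρ_d| < 3/4 (rho_unique), so
ker_d <= ρ_d^2 (16/9) ker (9/16) <= (16/9) ρ_d^2 (25/32)^T, sum <= (16/9)(25/32)^T (rho_parseval). Total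
4 (1/2)^T + (32/9)(25/32)^T <= 8 (113/128)^T. Case |ρ_{d0}| < 7/8: P = 0, all |ρ_d| < 7/8 (if |ρ_d| >= 3/4 then
d = d0 by al_spec), ker_d <= ρ_d^2 (64/49) (113/128)^T, total 2 (64/49) (113/128)^T.
-/

open scoped BigOperators

namespace Pool.Agent.Lib.P325sdp

open Pool.Agent.Lib.P325x (Pt Cu aff cor)

variable {n : ℕ}

theorem pc_avgL_apply' {Z : Type} (s : Finset Z) (F : Z → ℝ) :
    avgL s F = (s.card : ℝ)⁻¹ * ∑ c ∈ s, F c := by
  simp [avgL, LinearMap.smul_apply, LinearMap.sum_apply]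

theorem pc_abs_avgL_le {Z : Type} (s : Finset Z) (F : Z → ℝ) (h1 : ∀ c, |F c| ≤ 1) :
    |avgL s F| ≤ 1 := by
  rw [pc_avgL_apply', abs_mul, abs_of_nonneg (by positivity : (0 : ℝ) ≤ (s.card : ℝ)⁻¹)]
  have h2 : |∑ c ∈ s, F c| ≤ s.card := by
    refine (Finset.abs_sum_le_sum_abs _ _).trans ?_
    refine (Finset.sum_le_sum fun c _ => h1 c).trans ?_
    simp
  rcases Nat.eq_zero_or_pos s.card with h0 | h0
  · rw [h0]; simp
  · have h3 : (0 : ℝ) < s.card := by exact_mod_cast h0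
    rw [inv_mul_le_iff₀ h3]
    linarith

theorem pc_mem_sol_iff {B G : Type} [Fintype B] [Fintype G] [Add G] (R : B → B → Prop)
    (al : B → B → G) (X : Finset B) (c : B → G) :
    c ∈ sol R al X ↔ ∀ x ∈ X, ∀ x' ∈ X, R x x' → c x = c x' + al x x' := by
  classical
  simp [sol]

theorem pc_mem_eqs_iff (x x' : Cu n) (d : Pt n) (c : Cu n → Pt n) :
    c ∈ eqs x x' d ↔ c x = c x' + d := by
  classical
  simp [eqs]

theorem pc_mem_pair_cases {x x' : Cu n} {P : Cu n → Cu n → Prop} :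
    (∀ a ∈ ({x, x'} : Finset (Cu n)), ∀ b ∈ ({x, x'} : Finset (Cu n)), P a b) ↔
      P x x ∧ P x x' ∧ P x' x ∧ P x' x' := by
  simp only [Finset.mem_insert, Finset.mem_singleton, forall_eq_or_imp, forall_eq]
  tauto

theorem pc_rel_self (x : Cu n) :
    7 / 8 ≤ |rho (x + x + aff (al x x) 0)| := by
  have e : x + x + aff (al x x) 0 = aff 0 0 := by
    rw [al_self, CharTwo.add_self_eq_zero, zero_add]
  rw [e, rho_aff, if_pos rfl, abs_one]
  norm_num

theorem pc_add_eq_iff_pt (a b d : Pt n) : a = b + d ↔ b = a + d := by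
  constructor
  · rintro rfl
    rw [add_assoc, P325x.pt_add_self, add_zero]
  · rintro rfl
    rw [add_assoc, P325x.pt_add_self, add_zero]

theorem pc_sol_pair (R : Cu n → Cu n → Prop) (x x' : Cu n) (hR : R x' x ↔ R x x') (c : Cu n → Pt n) :
    c ∈ sol R al {x, x'} ↔ (R x x' → c x = c x' + al x x') := by
  rw [pc_mem_sol_iff, pc_mem_pair_cases, hR, al_self, al_self, al_symm x x']
  simp only [add_zero, implies_true, true_and, and_true]
  constructor
  · intro h; exact h.1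
  · intro h
    exact ⟨h, fun hr => (pc_add_eq_iff_pt _ _ _).1 (h hr)⟩

theorem pc_good_pair {T : ℕ} (ω : Fin T → Pt n × Pt n) (x x' : Cu n) :
    Good ω {x, x'} ↔ (Rel ω x x' → 7 / 8 ≤ |rho (x + x' + aff (al x x') 0)|) := by
  have hrel : Rel ω x' x ↔ Rel ω x x' := by
    rw [Rel, Rel, al_symm x x', add_comm x' x]
  rw [Good, pc_mem_pair_cases, hrel, al_symm x x', add_comm x' x]
  constructor
  · intro h; exact h.2.1
  · intro h
    exact ⟨fun _ => pc_rel_self x, h, h, fun _ => pc_rel_self x'⟩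

theorem pc_loc_apply (T : ℕ) (X : Finset (Cu n)) (F : (Cu n → Pt n) → ℝ) :
    locL T X F = (Fintype.card (Fin T → Pt n × Pt n) : ℝ)⁻¹ *
      ∑ ω : Fin T → Pt n × Pt n, avgL (solX ω X) F := by
  simp [locL, LinearMap.smul_apply, LinearMap.sum_apply]

theorem pc_solX_self {T : ℕ} (ω : Fin T → Pt n × Pt n) (x : Cu n) :
    solX ω {x, x} = Finset.univ := by
  rw [solX]
  split_ifs with hg
  · ext c
    rw [pc_sol_pair _ _ _ Iff.rfl, al_self]
    simp
  · rfl

theorem pc_solX_big {T : ℕ} (ω : Fin T → Pt n × Pt n) (x x' : Cu n)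
    (h : 7 / 8 ≤ |rho (x + x' + aff (al x x') 0)|) (ha : agr ω (x + x' + aff (al x x') 0)) :
    solX ω {x, x'} = eqs x x' (al x x') := by
  have hr : Rel ω x x' := ⟨by linarith, ha⟩
  have hrel : Rel ω x' x ↔ Rel ω x x' := by
    rw [Rel, Rel, al_symm x x', add_comm x' x]
  rw [solX, if_pos ((pc_good_pair ω x x').2 fun _ => h)]
  ext c
  rw [pc_sol_pair _ _ _ hrel, pc_mem_eqs_iff]
  simp [hr]

theorem pc_solX_univ {T : ℕ} (ω : Fin T → Pt n × Pt n) (x x' : Cu n)
    (h : 7 / 8 ≤ |rho (x + x' + aff (al x x') 0)| → ¬ agr ω (x + x' + aff (al x x') 0)) :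
    solX ω {x, x'} = Finset.univ := by
  have hrel : Rel ω x' x ↔ Rel ω x x' := by
    rw [Rel, Rel, al_symm x x', add_comm x' x]
  rw [solX]
  split_ifs with hg
  · rw [pc_good_pair] at hg
    have hr : ¬ Rel ω x x' := fun hr => h (hg hr) hr.2
    ext c
    rw [pc_sol_pair _ _ _ hrel]
    simp [hr]
  · rfl

theorem pc_loc_const (T : ℕ) (X : Finset (Cu n)) (F : (Cu n → Pt n) → ℝ)
    (h : ∀ ω : Fin T → Pt n × Pt n, solX ω X = Finset.univ) : locL T X F = avgL Finset.univ F := by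
  have hN : (Fintype.card (Fin T → Pt n × Pt n) : ℝ) ≠ 0 := by
    exact_mod_cast Fintype.card_ne_zero
  rw [pc_loc_apply, Finset.sum_congr rfl fun ω _ => by rw [h ω], Finset.sum_const, Finset.card_univ,
    nsmul_eq_mul, ← mul_assoc, inv_mul_cancel₀ hN, one_mul]

theorem pc_loc_big (T : ℕ) (x x' : Cu n) (F : (Cu n → Pt n) → ℝ)
    (h : 7 / 8 ≤ |rho (x + x' + aff (al x x') 0)|) :
    locL T {x, x'} F = avgL Finset.univ F + ((1 + rho (x + x' + aff (al x x') 0) ^ 2) / 2) ^ T *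
      (avgL (eqs x x' (al x x')) F - avgL Finset.univ F) := by
  classical
  have hN : (Fintype.card (Fin T → Pt n × Pt n) : ℝ) ≠ 0 := by
    exact_mod_cast Fintype.card_ne_zero
  set f : Cu n := x + x' + aff (al x x') 0 with hf
  have e : ∀ ω : Fin T → Pt n × Pt n, avgL (solX ω {x, x'}) F = avgL Finset.univ F +
      (if agr ω f then 1 else 0) * (avgL (eqs x x' (al x x')) F - avgL Finset.univ F) := by
    intro ω
    by_cases ha : agr ω f
    · rw [pc_solX_big ω x x' h ha, if_pos ha]; ring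
    · rw [pc_solX_univ ω x x' fun _ => ha, if_neg ha]; ring
  have hc : (∑ ω : Fin T → Pt n × Pt n, (if agr ω f then (1 : ℝ) else 0)) =
      ((1 + rho f ^ 2) / 2) ^ T * (Fintype.card (Fin T → Pt n × Pt n) : ℝ) := by
    rw [← sig_prob T f, Finset.sum_boole, Nat.card_eq_fintype_card, Fintype.card_subtype]
  rw [pc_loc_apply, Finset.sum_congr rfl fun ω _ => e ω, Finset.sum_add_distrib, ← Finset.sum_mul, hc,
    Finset.sum_const, Finset.card_univ, nsmul_eq_mul]
  field_simp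

theorem pc_pair_apply (T : ℕ) (x x' : Cu n) (F : (Cu n → Pt n) → ℝ) :
    pairL T x x' F = avgL Finset.univ F + ∑ d : Pt n, ker T (rho (x + x' + aff d 0) ^ 2) *
      (avgL (eqs x x' d) F - avgL Finset.univ F) := by
  simp only [pairL, LinearMap.add_apply, LinearMap.smul_apply, LinearMap.sum_apply, smul_eq_mul,
    mul_sub, Finset.sum_sub_distrib, ← Finset.sum_mul]
  ring

theorem pc_abs_dif_le (x x' : Cu n) (d : Pt n) (F : (Cu n → Pt n) → ℝ) (h1 : ∀ c, |F c| ≤ 1) :
    |avgL (eqs x x' d) F - avgL Finset.univ F| ≤ 2 := by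
  have e1 := pc_abs_avgL_le (eqs x x' d) F h1
  have e2 := pc_abs_avgL_le (Finset.univ : Finset (Cu n → Pt n)) F h1
  rw [abs_le] at e1 e2 ⊢
  constructor
  · linarith [e1.1, e2.2]
  · linarith [e1.2, e2.1]

theorem pc_rho_sq_le (f : Cu n) : rho f ^ 2 ≤ 1 := by
  have := abs_rho_le f
  rw [← sq_abs]
  have h0 := abs_nonneg (rho f)
  nlinarith

theorem pc_ker_le_of (T : ℕ) (hT : 1 ≤ T) (f : Cu n) (t : ℝ) (ht : 0 < t) (ht1 : t ≤ 1)
    (h : |rho f| ≤ t) : ker T (rho f ^ 2) ≤ rho f ^ 2 * ((1 / t ^ 2) * ((1 + t ^ 2) / 2) ^ T) := by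
  have h2 : rho f ^ 2 ≤ t ^ 2 := by
    rw [← sq_abs]
    exact pow_le_pow_left₀ (abs_nonneg _) h 2
  have h3 := ker_le_div T hT (rho f ^ 2) (t ^ 2) (sq_nonneg _) (by positivity) h2
  have h4 := ker_le T hT (t ^ 2) (by positivity) (by nlinarith)
  refine h3.trans ?_
  have h5 : 0 ≤ rho f ^ 2 / t ^ 2 := by positivity
  calc rho f ^ 2 / t ^ 2 * ker T (t ^ 2) ≤ rho f ^ 2 / t ^ 2 * ((1 + t ^ 2) / 2) ^ T :=
        mul_le_mul_of_nonneg_left h4 h5
    _ = _ := by ring

theorem pair_close (T : ℕ) (hT : 1 ≤ T) (x x' : Cu n) (F : (Cu n → Pt n) → ℝ)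
    (h1 : ∀ c, |F c| ≤ 1) :
    |locL T {x, x'} F - pairL T x x' F| ≤ 8 * (113 / 128) ^ T := by
  classical
  by_cases hxx : x = x'
  · subst hxx
    rw [pc_loc_const T _ F fun ω => pc_solX_self ω x, pair_self T hT, sub_self, abs_zero]
    positivity
  have hQ : (0 : ℝ) < (113 / 128) ^ T := by positivity
  have hpow : ∀ r : ℝ, 0 ≤ r → r ≤ 113 / 128 → r ^ T ≤ (113 / 128) ^ T := by
    intro r h0 hr
    exact pow_le_pow_left₀ h0 hr T
  have hparse : ∑ d : Pt n, rho (x + x' + aff d 0) ^ 2 = 1 := rho_parseval (x + x')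
  have hker0 : ∀ d : Pt n, 0 ≤ ker T (rho (x + x' + aff d 0) ^ 2) :=
    fun d => ker_nonneg T hT _ (sq_nonneg _)
  -- sums of the small terms
  have hsum : ∀ (s : Finset (Pt n)) (t : ℝ), 0 < t → t ≤ 1 →
      (∀ d ∈ s, |rho (x + x' + aff d 0)| ≤ t) →
      |∑ d ∈ s, ker T (rho (x + x' + aff d 0) ^ 2) *
        (avgL (eqs x x' d) F - avgL Finset.univ F)| ≤ 2 * ((1 / t ^ 2) * ((1 + t ^ 2) / 2) ^ T) := by
    intro s t ht ht1 hs
    set K : ℝ := (1 / t ^ 2) * ((1 + t ^ 2) / 2) ^ T with hK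
    have hK0 : 0 ≤ K := by positivity
    refine (Finset.abs_sum_le_sum_abs _ _).trans ?_
    have h2 : ∀ d ∈ s, |ker T (rho (x + x' + aff d 0) ^ 2) *
        (avgL (eqs x x' d) F - avgL Finset.univ F)| ≤ rho (x + x' + aff d 0) ^ 2 * (2 * K) := by
      intro d hd
      rw [abs_mul, abs_of_nonneg (hker0 d)]
      have h3 := pc_ker_le_of T hT (x + x' + aff d 0) t ht ht1 (hs d hd)
      have h4 := pc_abs_dif_le x x' d F h1
      calc ker T (rho (x + x' + aff d 0) ^ 2) * |avgL (eqs x x' d) F - avgL Finset.univ F|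
          ≤ (rho (x + x' + aff d 0) ^ 2 * K) * 2 :=
            mul_le_mul h3 h4 (abs_nonneg _) (by positivity)
        _ = _ := by ring
    refine (Finset.sum_le_sum h2).trans ?_
    rw [← Finset.sum_mul]
    have h5 : ∑ d ∈ s, rho (x + x' + aff d 0) ^ 2 ≤ 1 := by
      rw [← hparse]
      exact Finset.sum_le_sum_of_subset_of_nonneg (Finset.subset_univ _)
        fun d _ _ => sq_nonneg _
    calc (∑ d ∈ s, rho (x + x' + aff d 0) ^ 2) * (2 * K) ≤ 1 * (2 * K) :=
          mul_le_mul_of_nonneg_right h5 (by positivity)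
      _ = _ := by ring
  by_cases hbig : 7 / 8 ≤ |rho (x + x' + aff (al x x') 0)|
  · -- the close case
    rw [pc_loc_big T x x' F hbig, pc_pair_apply, ← Finset.add_sum_erase _ _ (Finset.mem_univ (al x x'))]
    have h2 := hsum (Finset.univ.erase (al x x')) (3 / 4) (by norm_num) (by norm_num) (by
      intro d hd
      by_contra hcon
      push Not at hcon
      exact (Finset.mem_erase.1 hd).1 (al_spec x x' d hcon.le).symm)
    set S : ℝ := ∑ d ∈ Finset.univ.erase (al x x'), ker T (rho (x + x' + aff d 0) ^ 2) *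
        (avgL (eqs x x' d) F - avgL Finset.univ F) with hS
    have h3 := pc_abs_dif_le x x' (al x x') F h1
    set D : ℝ := avgL (eqs x x' (al x x')) F - avgL Finset.univ F with hD
    set s : ℝ := rho (x + x' + aff (al x x') 0) ^ 2 with hs
    have hs0 : 0 ≤ s := sq_nonneg _
    have hs1 : s ≤ 1 := pc_rho_sq_le _
    have h4 := ker_le T hT s hs0 hs1
    have h5 := ker_ge T hT s hs0 hs1
    have h6 := hpow (1 / 2) (by norm_num) (by norm_num)
    have h7 := hpow ((1 + (3 / 4) ^ 2) / 2) (by norm_num) (by norm_num)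
    have h8 : |((1 + s) / 2) ^ T * D - ker T s * D| ≤ 2 * (1 / 2) ^ T * 2 := by
      rw [← sub_mul, abs_mul]
      refine mul_le_mul ?_ h3 (abs_nonneg _) (by positivity)
      rw [abs_le]
      constructor
      · have : (0 : ℝ) ≤ 2 * (1 / 2) ^ T := by positivity
        linarith
      · linarith
    have e : avgL Finset.univ F + ((1 + s) / 2) ^ T * D - (avgL Finset.univ F + (ker T s * D + S)) =
        (((1 + s) / 2) ^ T * D - ker T s * D) - S := by ring
    rw [e]
    refine (abs_sub _ _).trans ?_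
    linarith
  · -- the far case
    push Not at hbig
    rw [pc_loc_const T _ F fun ω => pc_solX_univ ω x x' fun h => absurd h (not_le.2 hbig), pc_pair_apply,
      sub_add_cancel_left, abs_neg]
    have h2 := hsum Finset.univ (7 / 8) (by norm_num) (by norm_num) (by
      intro d _
      by_contra hcon
      push Not at hcon
      have h3 := al_spec x x' d (by linarith)
      rw [h3] at hbig
      exact lt_asymm hbig hcon)
    refine h2.trans ?_
    have h7 := hpow ((1 + (7 / 8) ^ 2) / 2) (by norm_num) (by norm_num)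
    linarith

end Pool.Agent.Lib.P325sdp
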