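import Pool.Agent.Lib.P325sdp.PairA

/-!
Module PairP (2h; black boxes PairA, ker_sum). The second moments of the exact pair laws are positive semidefinite.
PROOF. gram_pow: rho (f + g)^m K^m = (∑_a sg (f a) sg (g a))^m = ∑_{a : Fin m → Pt n} ∏_i sg (f (a i)) ∏_i sg (g (a i))
(Finset.prod_univ_sum / Fintype.sum_pow), so the double sum is K^(-m) ∑_a (∑_i g i ∏ sg)^2 >= 0. gram_ker: ker_sum:
ker (ρ^2) = ∑ w_j (ρ^2)^(j+1) = ∑ w_j ρ^(2j+2), w_j >= 0.
pair_psd: K = 2^n, m x = (∑_g H x g)/K. (a) For x ≠ x' and the function F c = H x (c x) H x' (c x'):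
avgL (eqs x x' d) F = (1/K) ∑_g H x (g + d) H x' g (on eqs x x' d, F c = H x (c x' + d) H x' (c x') depends on c x' only,
eqs_avg with the roles of x, x' exchanged; the average over all c of a function of c x' is the average over g).
avgL univ F = m x m x'. So pairL F = (1/K) ∑_{g, g'} ker (ρ^2) H x g H x' g' + (1 - ∑_d ker_d) m x m x' with
ρ = rho ((x + aff g 0) + (x' + aff g' 0)), d = g + g'. (b) The same formula is true for x = x' (pair_self;
rho (aff (g + g') 0) = 1 if g = g', else 0, ∑_d ker_d = 1). (c) With G x g = H x g - m x: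
(1/K) ∑_{g,g'} ker (ρ^2) G x g G x' g' = (1/K) ∑ ker H H' - (∑_d ker_d) m x m x', since
∑_{g'} ker (ρ^2) = ∑_d ker_d for each g. So pairL F = (1/K) ∑_{g,g'} ker (ρ^2) G x g G x' g' + m x m x'. The whole expression
is (c0 + ∑ m x)^2 + (1/K) (gram_ker for the family (x, g) ↦ x + aff g 0 with coefficients G x g) >= 0.
-/

open scoped BigOperators

namespace Pool.Agent.Lib.P325sdp

open Pool.Agent.Lib.P325x (Pt Cu aff cor)

variable {n : ℕ}

namespace PairPAux

open Pool.Agent.Lib.P325x (sg sg_add aff_add cu_add_self pt_add_self)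

theorem rho_add_eq (x y : Cu n) : rho (x + y) = (∑ a, sg (x a) * sg (y a)) / 2 ^ n := by
  rw [rho, cor]
  congr 1
  exact Finset.sum_congr rfl fun a _ => by rw [Pi.add_apply, sg_add]

theorem gram_sq {I P : Type} [Fintype I] [Fintype P] (A : I → P → ℝ) :
    ∑ i, ∑ j, ∑ p, A i p * A j p = ∑ p, (∑ i, A i p) ^ 2 := by
  rw [Finset.sum_congr rfl fun i _ => Finset.sum_comm, Finset.sum_comm]
  refine Finset.sum_congr rfl fun p _ => ?_
  rw [sq, Finset.sum_mul_sum]

theorem card_pt : (Fintype.card (Pt n) : ℝ) = 2 ^ n := by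
  rw [Fintype.card_fun, ZMod.card, Fintype.card_fin]
  push_cast
  rfl

theorem sum_shift (v : Pt n) (φ : Pt n → ℝ) : ∑ g, φ (v + g) = ∑ g, φ g :=
  Equiv.sum_comp (Equiv.addLeft v) φ

theorem avg_univ (F : (Cu n → Pt n) → ℝ) :
    avgL Finset.univ F = (Fintype.card (Cu n → Pt n) : ℝ)⁻¹ * ∑ c, F c := by
  rw [avgL_apply, Finset.card_univ]

theorem card_ne : (Fintype.card (Cu n → Pt n) : ℝ) ≠ 0 := by
  exact_mod_cast Fintype.card_ne_zero

/-- the average of a function of one label -/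
theorem avg_one (x : Cu n) (φ : Pt n → ℝ) :
    avgL Finset.univ (fun c : Cu n → Pt n => φ (c x)) = (∑ g, φ g) / 2 ^ n := by
  have h1 : ∀ g : Pt n, ∑ c : Cu n → Pt n, φ (c x + g) = ∑ c : Cu n → Pt n, φ (c x) := by
    intro g
    exact Equiv.sum_comp (Equiv.addRight (fun _ => g : Cu n → Pt n)) (fun c => φ (c x))
  have h2 : (2 : ℝ) ^ n * ∑ c : Cu n → Pt n, φ (c x) =
      (Fintype.card (Cu n → Pt n) : ℝ) * ∑ g, φ g := by
    calc (2 : ℝ) ^ n * ∑ c : Cu n → Pt n, φ (c x)
        = ∑ g : Pt n, ∑ c : Cu n → Pt n, φ (c x + g) := by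
          rw [Finset.sum_congr rfl fun g _ => h1 g, Finset.sum_const, Finset.card_univ,
            nsmul_eq_mul, card_pt]
      _ = ∑ c : Cu n → Pt n, ∑ g : Pt n, φ (c x + g) := Finset.sum_comm
      _ = _ := by
          rw [Finset.sum_congr rfl fun c _ => sum_shift (c x) φ, Finset.sum_const,
            Finset.card_univ, nsmul_eq_mul]
  have h3 : (2 : ℝ) ^ n ≠ 0 := by positivity
  rw [avg_univ, eq_div_iff h3, inv_mul_eq_div, div_mul_eq_mul_div, div_eq_iff card_ne]
  linarith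

/-- the labels of two different points are independent -/
theorem avg_two (x x' : Cu n) (h : x ≠ x') (φ ψ : Pt n → ℝ) :
    avgL Finset.univ (fun c : Cu n → Pt n => φ (c x) * ψ (c x')) =
      (∑ g, φ g) / 2 ^ n * ((∑ g, ψ g) / 2 ^ n) := by
  classical
  have h1 : ∀ g g' : Pt n, ∑ c : Cu n → Pt n, φ (c x + g) * ψ (c x' + g') =
      ∑ c : Cu n → Pt n, φ (c x) * ψ (c x') := by
    intro g g'
    have h2 := Equiv.sum_comp (Equiv.addRight
      (Function.update (fun _ => g') x g : Cu n → Pt n)) (fun c => φ (c x) * ψ (c x'))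
    rw [← h2]
    refine Finset.sum_congr rfl fun c _ => ?_
    simp only [Equiv.coe_addRight, Pi.add_apply, Function.update_self,
      Function.update_of_ne h.symm]
  have h2 : (2 : ℝ) ^ n * ((2 : ℝ) ^ n * ∑ c : Cu n → Pt n, φ (c x) * ψ (c x')) =
      (Fintype.card (Cu n → Pt n) : ℝ) * ((∑ g, φ g) * ∑ g, ψ g) := by
    calc (2 : ℝ) ^ n * ((2 : ℝ) ^ n * ∑ c : Cu n → Pt n, φ (c x) * ψ (c x'))
        = ∑ g : Pt n, ∑ g' : Pt n, ∑ c : Cu n → Pt n, φ (c x + g) * ψ (c x' + g') := by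
          rw [Finset.sum_congr rfl fun g _ => Finset.sum_congr rfl fun g' _ => h1 g g']
          simp only [Finset.sum_const, Finset.card_univ, nsmul_eq_mul, card_pt]
      _ = ∑ c : Cu n → Pt n, ∑ g : Pt n, ∑ g' : Pt n, φ (c x + g) * ψ (c x' + g') := by
          rw [Finset.sum_congr rfl fun g _ => Finset.sum_comm, Finset.sum_comm]
      _ = ∑ c : Cu n → Pt n, (∑ g, φ g) * ∑ g, ψ g := by
          refine Finset.sum_congr rfl fun c _ => ?_
          rw [← Finset.sum_mul_sum, sum_shift (c x) φ, sum_shift (c x') ψ]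
      _ = _ := by
          rw [Finset.sum_const, Finset.card_univ, nsmul_eq_mul]
  have h3 : (2 : ℝ) ^ n ≠ 0 := by positivity
  rw [avg_univ, div_mul_div_comm, eq_div_iff (mul_ne_zero h3 h3), inv_mul_eq_div,
    div_mul_eq_mul_div, div_eq_iff card_ne]
  linarith

theorem pt_eq_add (a b d : Pt n) : a = b + d ↔ b = a + d := by
  constructor
  · rintro rfl
    rw [add_assoc, pt_add_self, add_zero]
  · rintro rfl
    rw [add_assoc, pt_add_self, add_zero]

theorem eqs_symm (x x' : Cu n) (d : Pt n) : eqs x x' d = eqs x' x d := by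
  classical
  ext c
  simp only [eqs, Finset.mem_filter, Finset.mem_univ, true_and]
  exact pt_eq_add _ _ _

/-- the kernel of the pair law -/
noncomputable def kk (T : ℕ) (x x' : Cu n) (g g' : Pt n) : ℝ :=
  ker T (rho ((x + aff g 0) + (x' + aff g' 0)) ^ 2)

/-- the total weight of the kernel -/
noncomputable def tot (T : ℕ) (x x' : Cu n) : ℝ := ∑ d : Pt n, ker T (rho (x + x' + aff d 0) ^ 2)

theorem kk_eq (T : ℕ) (x x' : Cu n) (g g' : Pt n) :
    kk T x x' g g' = ker T (rho (x + x' + aff (g + g') 0) ^ 2) := by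
  rw [kk]
  congr 3
  have h1 : aff (g + g') (0 : ZMod 2) = aff g 0 + aff g' 0 := by
    rw [← aff_add, add_zero]
  rw [h1]
  abel

theorem sum_kk_right (T : ℕ) (x x' : Cu n) (g : Pt n) : ∑ g', kk T x x' g g' = tot T x x' := by
  rw [tot, ← sum_shift g (fun d => ker T (rho (x + x' + aff d 0) ^ 2))]
  exact Finset.sum_congr rfl fun g' _ => kk_eq T x x' g g'

theorem sum_kk_left (T : ℕ) (x x' : Cu n) (g' : Pt n) : ∑ g, kk T x x' g g' = tot T x x' := by
  rw [tot, ← sum_shift g' (fun d => ker T (rho (x + x' + aff d 0) ^ 2))]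
  exact Finset.sum_congr rfl fun g _ => by rw [kk_eq T x x' g g', add_comm g g']

/-- the average of a product over the labelings with a given difference -/
theorem avg_eqs (x x' : Cu n) (h : x ≠ x') (d : Pt n) (φ ψ : Pt n → ℝ) :
    avgL (eqs x x' d) (fun c => φ (c x) * ψ (c x')) = (∑ g', φ (g' + d) * ψ g') / 2 ^ n := by
  classical
  have h1 : avgL (eqs x x' d) (fun c => φ (c x) * ψ (c x')) =
      avgL (eqs x x' d) (fun c => φ (c x' + d) * ψ (c x')) := by
    rw [avgL_apply, avgL_apply]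
    congr 1
    refine Finset.sum_congr rfl fun c hc => ?_
    have h2 : c x = c x' + d := by
      simpa only [eqs, Finset.mem_filter, Finset.mem_univ, true_and] using hc
    rw [h2]
  rw [h1, eqs_symm, eqs_avg x' x h.symm d (fun c => φ (c x' + d) * ψ (c x'))]
  · exact avg_one x' (fun g => φ (g + d) * ψ g)
  · intro a b hab
    have h3 : a x' = b x' := hab x' rfl
    simp only [h3]

/-- the formula of the pair law -/
theorem pair_formula (T : ℕ) (hT : 1 ≤ T) (x x' : Cu n) (H : Cu n → Pt n → ℝ) :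
    pairL T x x' (fun c : Cu n → Pt n => H x (c x) * H x' (c x')) =
      (∑ g, ∑ g', kk T x x' g g' * (H x g * H x' g')) / 2 ^ n +
        (1 - tot T x x') * ((∑ g, H x g) / 2 ^ n * ((∑ g, H x' g) / 2 ^ n)) := by
  classical
  by_cases h : x = x'
  · subst h
    have h1 : ∀ d : Pt n, ker T (rho (x + x + aff d 0) ^ 2) = if d = 0 then 1 else 0 := by
      intro d
      rw [cu_add_self, zero_add, rho_aff]
      split_ifs
      · rw [one_pow, ker_one T hT]
      · rw [zero_pow (by norm_num), ker_zero]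
    have h2 : tot T x x = 1 := by
      rw [tot, Finset.sum_congr rfl fun d _ => h1 d]
      simp
    have h3 : ∀ g g' : Pt n, kk T x x g g' = if g = g' then 1 else 0 := by
      intro g g'
      rw [kk_eq, h1]
      have h4 : g + g' = 0 ↔ g = g' := by
        constructor
        · intro h5
          have h6 := (pt_eq_add 0 g g').1 h5.symm
          rw [zero_add] at h6
          exact h6
        · rintro rfl
          exact pt_add_self g
      simp only [h4]
    rw [pair_self T hT x, h2, sub_self, zero_mul, add_zero]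
    rw [avg_one x (fun g => H x g * H x g)]
    congr 1
    refine Finset.sum_congr rfl fun g _ => ?_
    simp only [h3, ite_mul, one_mul, zero_mul, Finset.sum_ite_eq, Finset.mem_univ, if_true]
  · rw [pairL]
    simp only [LinearMap.add_apply, LinearMap.smul_apply, LinearMap.coe_sum, Finset.sum_apply,
      smul_eq_mul]
    rw [avg_two x x' h (H x) (H x')]
    congr 1
    rw [Finset.sum_congr rfl fun d _ => by rw [avg_eqs x x' h d (H x) (H x')]]
    have h1 : ∀ g' : Pt n, ∑ g, kk T x x' g g' * (H x g * H x' g') =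
        ∑ d, ker T (rho (x + x' + aff d 0) ^ 2) * (H x (g' + d) * H x' g') := by
      intro g'
      rw [← sum_shift g' (fun g => kk T x x' g g' * (H x g * H x' g'))]
      refine Finset.sum_congr rfl fun d _ => ?_
      have h2 : g' + d + g' = d := by
        rw [add_comm g' d, add_assoc, pt_add_self, add_zero]
      rw [kk_eq, h2]
    rw [Finset.sum_comm, Finset.sum_congr rfl fun g' _ => h1 g', Finset.sum_comm,
      Finset.sum_div]
    refine Finset.sum_congr rfl fun d _ => ?_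
    rw [← Finset.mul_sum, mul_div_assoc]

/-- the centred formula of the pair law -/
theorem pair_centred (T : ℕ) (hT : 1 ≤ T) (x x' : Cu n) (H : Cu n → Pt n → ℝ) :
    pairL T x x' (fun c : Cu n → Pt n => H x (c x) * H x' (c x')) =
      (∑ g, ∑ g', (H x g - (∑ a, H x a) / 2 ^ n) * (H x' g' - (∑ a, H x' a) / 2 ^ n) *
        kk T x x' g g') / 2 ^ n + (∑ g, H x g) / 2 ^ n * ((∑ g, H x' g) / 2 ^ n) := by
  rw [pair_formula T hT x x' H]
  set m := (∑ a, H x a) / 2 ^ n with hm
  set m' := (∑ a, H x' a) / 2 ^ n with hm'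
  have hK : (2 : ℝ) ^ n ≠ 0 := by positivity
  have e1 : ∑ a, H x a = m * 2 ^ n := by rw [hm, div_mul_cancel₀ _ hK]
  have e2 : ∑ a, H x' a = m' * 2 ^ n := by rw [hm', div_mul_cancel₀ _ hK]
  have h1 : ∑ g, ∑ g', (H x g - m) * (H x' g' - m') * kk T x x' g g' =
      ∑ g, ∑ g', kk T x x' g g' * (H x g * H x' g') - m' * ∑ g, H x g * ∑ g', kk T x x' g g' -
        m * ∑ g', H x' g' * ∑ g, kk T x x' g g' + m * m' * ∑ g, ∑ g', kk T x x' g g' := by
    have h2 : ∑ g', H x' g' * ∑ g, kk T x x' g g' = ∑ g, ∑ g', H x' g' * kk T x x' g g' := by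
      rw [Finset.sum_comm]
      exact Finset.sum_congr rfl fun g' _ => Finset.mul_sum _ _ _
    rw [h2]
    simp only [Finset.mul_sum, ← Finset.sum_sub_distrib, ← Finset.sum_add_distrib]
    refine Finset.sum_congr rfl fun g _ => Finset.sum_congr rfl fun g' _ => ?_
    ring
  rw [h1]
  simp only [sum_kk_right, sum_kk_left, ← Finset.sum_mul, Finset.sum_const, Finset.card_univ,
    nsmul_eq_mul, card_pt]
  rw [e1, e2]
  field_simp
  ring

end PairPAux

theorem gram_pow {I : Type} [Fintype I] (f : I → Cu n) (g : I → ℝ) (m : ℕ) :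
    0 ≤ ∑ i, ∑ j, g i * g j * rho (f i + f j) ^ m := by
  have h1 : ∀ i j, g i * g j * rho (f i + f j) ^ m = (((2 : ℝ) ^ n) ^ m)⁻¹ *
      ∑ p : Fin m → Pt n, (g i * ∏ k, Pool.Agent.Lib.P325x.sg (f i (p k))) *
        (g j * ∏ k, Pool.Agent.Lib.P325x.sg (f j (p k))) := by
    intro i j
    rw [PairPAux.rho_add_eq, div_pow, Fintype.sum_pow, div_eq_inv_mul, Finset.mul_sum,
      Finset.mul_sum, Finset.mul_sum]
    refine Finset.sum_congr rfl fun p _ => ?_
    rw [Finset.prod_mul_distrib]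
    ring
  rw [Finset.sum_congr rfl fun i _ => Finset.sum_congr rfl fun j _ => h1 i j]
  simp_rw [← Finset.mul_sum]
  rw [PairPAux.gram_sq (fun (i : I) (p : Fin m → Pt n) =>
    g i * ∏ k, Pool.Agent.Lib.P325x.sg (f i (p k)))]
  exact mul_nonneg (by positivity) (Finset.sum_nonneg fun p _ => sq_nonneg _)

theorem gram_ker {I : Type} [Fintype I] (T : ℕ) (hT : 1 ≤ T) (f : I → Cu n) (g : I → ℝ) :
    0 ≤ ∑ i, ∑ j, g i * g j * ker T (rho (f i + f j) ^ 2) := by
  obtain ⟨w, hw, hs⟩ := ker_sum T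
  have h1 : ∑ i, ∑ j, g i * g j * ker T (rho (f i + f j) ^ 2) =
      ∑ l ∈ Finset.range T, w l * ∑ i, ∑ j, g i * g j * rho (f i + f j) ^ (2 * (l + 1)) := by
    symm
    simp only [Finset.mul_sum]
    rw [Finset.sum_comm]
    refine Finset.sum_congr rfl fun i _ => ?_
    rw [Finset.sum_comm]
    refine Finset.sum_congr rfl fun j _ => ?_
    rw [hs, Finset.mul_sum]
    refine Finset.sum_congr rfl fun l _ => ?_
    rw [pow_mul]
    ring
  rw [h1]
  exact Finset.sum_nonneg fun l _ => mul_nonneg (hw hT l) (gram_pow f g _)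

theorem pair_psd (T : ℕ) (hT : 1 ≤ T) (c0 : ℝ) (H : Cu n → Pt n → ℝ) :
    0 ≤ c0 ^ 2 + 2 * c0 * ∑ x, avgL Finset.univ (fun c : Cu n → Pt n => H x (c x)) +
      ∑ x, ∑ x', pairL T x x' (fun c : Cu n → Pt n => H x (c x) * H x' (c x')) := by
  have h1 : ∑ x, avgL Finset.univ (fun c : Cu n → Pt n => H x (c x)) =
      ∑ x, (∑ g, H x g) / 2 ^ n :=
    Finset.sum_congr rfl fun x _ => PairPAux.avg_one x (H x)
  have h2 : ∑ x, ∑ x', pairL T x x' (fun c : Cu n → Pt n => H x (c x) * H x' (c x')) =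
      (∑ x, ∑ x', ∑ g, ∑ g', (H x g - (∑ a, H x a) / 2 ^ n) *
        (H x' g' - (∑ a, H x' a) / 2 ^ n) * PairPAux.kk T x x' g g') / 2 ^ n +
        (∑ x, (∑ g, H x g) / 2 ^ n) ^ 2 := by
    rw [sq, Finset.sum_mul_sum, Finset.sum_div, ← Finset.sum_add_distrib]
    refine Finset.sum_congr rfl fun x _ => ?_
    rw [Finset.sum_div, ← Finset.sum_add_distrib]
    exact Finset.sum_congr rfl fun x' _ => PairPAux.pair_centred T hT x x' H
  have h3 : ∑ x : Cu n, ∑ x', ∑ g, ∑ g', (H x g - (∑ a, H x a) / 2 ^ n) *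
        (H x' g' - (∑ a, H x' a) / 2 ^ n) * PairPAux.kk T x x' g g' =
      ∑ p : Cu n × Pt n, ∑ p' : Cu n × Pt n, (H p.1 p.2 - (∑ a, H p.1 a) / 2 ^ n) *
        (H p'.1 p'.2 - (∑ a, H p'.1 a) / 2 ^ n) *
          ker T (rho ((p.1 + aff p.2 0) + (p'.1 + aff p'.2 0)) ^ 2) := by
    rw [Fintype.sum_prod_type]
    refine Finset.sum_congr rfl fun x _ => ?_
    rw [Finset.sum_comm]
    refine Finset.sum_congr rfl fun g _ => ?_
    rw [Fintype.sum_prod_type]
    rfl
  have h4 := gram_ker T hT (fun p : Cu n × Pt n => p.1 + aff p.2 0)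
    (fun p => H p.1 p.2 - (∑ a, H p.1 a) / 2 ^ n)
  rw [h1, h2, h3]
  have h5 : (0 : ℝ) < 2 ^ n := by positivity
  have h6 := div_nonneg h4 h5.le
  nlinarith [sq_nonneg (c0 + ∑ x, (∑ g, H x g) / 2 ^ n)]

end Pool.Agent.Lib.P325sdp
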