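import Pool.Agent.Lib.P325sdp.Smooth
import Pool.Agent.Lib.P325sdp.PairC
import Pool.Agent.Lib.P325sdp.PairP

/-!
Module Fam (2h; black boxes smooth, loc_pos, loc_cons, pair_pos, pair_symm, pair_self, pair_marg, pair_close,
pair_psd). A Sherali-Adams solution with positive semidefinite second moments for labels read off strings.
PROOF. Φ c p = y p (c (bs p)) maps labelings c of Cu n to labelings of V. If f depends on S then f ∘ Φ depends on
S.image bs. L S := (pairL T (bs p) (bs q)).comp (LinearMap.funLeft ℝ ℝ Φ) if S = {p, q} for some p, q (chosen), else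
(locL T (S.image bs)).comp (LinearMap.funLeft ℝ ℝ Φ). By pair_symm (and {p, q} = {p', q'} implies (p', q') = (p, q) or
(q, p)) L {p, q} f = pairL T (bs p) (bs q) (f ∘ Φ) for all p, q. Apply smooth with ξ = 4 r^2 (113/128)^T.
hpos: loc_pos, pair_pos. hex (|S| <= 2, S = {p, q} or ∅): T = S trivial; T = {p}: pair_marg, pair_self, pair_symm;
T = ∅: f is constant. hap: S = {p, q}: hex (difference 0). S not a pair: T = {p, q}: |loc (image S) F - loc {bs p, bs q} F| +
|loc {bs p, bs q} F - pairL F| <= 2 r^2 b^T + 8 b^T <= 4 r^2 b^T (r >= 2, b = 113/128; {bs p, bs q} = image of {p, q});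
T not a pair: loc_cons. hpsd: L {p} = L {p, p} = avgL univ ∘ Φ (pair_self); collect the p with bs p = x:
H x g = ∑_{p, bs p = x} h p (y p g), then the expression is that of pair_psd (bilinearity, Finset.sum_fiberwise).
-/

open scoped BigOperators

namespace Pool.Agent.Lib.P325sdp

open Pool.Agent.Lib.P325x (Pt Cu aff cor)
open Pool.Agent.Lib.P325h (IsLocalExpectation)

namespace FamAux

theorem isPos_comp {Z W : Type} {L : (Z → ℝ) →ₗ[ℝ] ℝ} (hL : IsPos L) (φ : Z → W) :
    IsPos (L.comp (LinearMap.funLeft ℝ ℝ φ)) where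
  one := hL.one
  nonneg := fun f hf => hL.nonneg _ (fun z => hf (φ z))

theorem isPos_const {Z : Type} {L : (Z → ℝ) →ₗ[ℝ] ℝ} (hL : IsPos L) (a : ℝ) :
    L (fun _ => a) = a := by
  have h : (fun _ : Z => a) = a • (fun _ : Z => (1 : ℝ)) := by
    funext z
    simp
  rw [h, map_smul, hL.one, smul_eq_mul, mul_one]

theorem isPos_dep_empty {V Ω : Type} [Nonempty (V → Ω)] {L L' : ((V → Ω) → ℝ) →ₗ[ℝ] ℝ}
    (hL : IsPos L) (hL' : IsPos L') {f : (V → Ω) → ℝ}
    (hf : DependsOn f ((∅ : Finset V) : Set V)) : L f = L' f := by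
  obtain ⟨z₀⟩ := ‹Nonempty (V → Ω)›
  have h : f = fun _ => f z₀ := by
    funext z
    exact hf (fun i hi => absurd hi (by simp))
  rw [h, isPos_const hL, isPos_const hL']

variable {n : ℕ} {V Ω : Type} [Fintype V] [DecidableEq V] [Fintype Ω] [Nonempty Ω]

/-- the labeling of `V` read off a labeling of the large cube -/
def ph (bs : V → Cu n) (y : V → Pt n → Ω) (c : Cu n → Pt n) : V → Ω := fun p => y p (c (bs p))

theorem dep_ph (bs : V → Cu n) (y : V → Pt n → Ω) {f : (V → Ω) → ℝ} {S : Finset V}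
    (hf : DependsOn f (S : Set V)) :
    DependsOn (fun c => f (ph bs y c)) ((S.image bs : Finset (Cu n)) : Set (Cu n)) := by
  intro c c' h
  apply hf
  intro p hp
  show y p (c (bs p)) = y p (c' (bs p))
  rw [h (bs p) (by simpa using ⟨p, hp, rfl⟩)]

/-- the functional at `S` -/
noncomputable def LS (bs : V → Cu n) (y : V → Pt n → Ω) (T : ℕ) (S : Finset V) :
    ((V → Ω) → ℝ) →ₗ[ℝ] ℝ := by
  classical
  exact if h : ∃ pq : V × V, S = {pq.1, pq.2} then
    (pairL T (bs h.choose.1) (bs h.choose.2)).comp (LinearMap.funLeft ℝ ℝ (ph bs y))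
  else (locL T (S.image bs)).comp (LinearMap.funLeft ℝ ℝ (ph bs y))

theorem pair_cases {p q p' q' : V} (h : ({p, q} : Finset V) = {p', q'}) :
    (p' = p ∧ q' = q) ∨ (p' = q ∧ q' = p) := by
  have h1 : (({p, q} : Finset V) : Set V) = (({p', q'} : Finset V) : Set V) := by rw [h]
  rw [Finset.coe_pair, Finset.coe_pair, Set.pair_eq_pair_iff] at h1
  rcases h1 with ⟨a, b⟩ | ⟨a, b⟩
  · exact Or.inl ⟨a.symm, b.symm⟩
  · exact Or.inr ⟨b.symm, a.symm⟩

theorem LS_pair (bs : V → Cu n) (y : V → Pt n → Ω) (T : ℕ) (p q : V) (f : (V → Ω) → ℝ) :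
    LS bs y T {p, q} f = pairL T (bs p) (bs q) (fun c => f (ph bs y c)) := by
  have h : ∃ pq : V × V, ({p, q} : Finset V) = {pq.1, pq.2} := ⟨(p, q), rfl⟩
  rw [LS, dif_pos h]
  rcases pair_cases h.choose_spec with ⟨h1, h2⟩ | ⟨h1, h2⟩
  · rw [h1, h2]; rfl
  · rw [h1, h2, pair_symm]; rfl

theorem LS_not (bs : V → Cu n) (y : V → Pt n → Ω) (T : ℕ) (S : Finset V)
    (h : ¬ ∃ pq : V × V, S = {pq.1, pq.2}) (f : (V → Ω) → ℝ) :
    LS bs y T S f = locL T (S.image bs) (fun c => f (ph bs y c)) := by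
  rw [LS, dif_neg h]
  rfl

theorem LS_pos (bs : V → Cu n) (y : V → Pt n → Ω) (T : ℕ) (hT : 1 ≤ T) (S : Finset V) :
    IsPos (LS bs y T S) := by
  rw [LS]
  split_ifs with h
  · exact isPos_comp (pair_pos T hT _ _) _
  · exact isPos_comp (loc_pos T _) _

theorem LS_single (bs : V → Cu n) (y : V → Pt n → Ω) (T : ℕ) (hT : 1 ≤ T) (p : V)
    (f : (V → Ω) → ℝ) :
    LS bs y T {p} f = avgL Finset.univ (fun c => f (ph bs y c)) := by
  have h : ({p} : Finset V) = {p, p} := by simp
  rw [h, LS_pair, pair_self T hT]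

theorem LS_ex (bs : V → Cu n) (y : V → Pt n → Ω) (T : ℕ) (hT : 1 ≤ T) (S S' : Finset V)
    (hS : S' ⊆ S) (hc : S.card ≤ 2) (f : (V → Ω) → ℝ) (hf : DependsOn f (S' : Set V)) :
    LS bs y T S f = LS bs y T S' f := by
  rcases S'.eq_empty_or_nonempty with h0 | hne
  · subst h0
    exact isPos_dep_empty (LS_pos bs y T hT S) (LS_pos bs y T hT ∅) hf
  · by_cases hSS : S' = S
    · rw [hSS]
    · have hss : S' ⊂ S := lt_of_le_of_ne hS hSS
      have hlt := Finset.card_lt_card hss
      have h1 : 0 < S'.card := hne.card_pos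
      have hc1 : S'.card = 1 := by omega
      have hc2 : S.card = 2 := by omega
      obtain ⟨p, hp⟩ := Finset.card_eq_one.1 hc1
      subst hp
      have hpS : p ∈ S := hS (Finset.mem_singleton_self p)
      obtain ⟨a, b, hab, hSab⟩ := Finset.card_eq_two.1 hc2
      obtain ⟨q, hq⟩ : ∃ q, S = {p, q} := by
        rw [hSab] at hpS
        rcases Finset.mem_insert.1 hpS with h | h
        · exact ⟨b, by rw [hSab, h]⟩
        · rw [Finset.mem_singleton] at h
          exact ⟨a, by rw [hSab, h, Finset.pair_comm]⟩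
      rw [hq, LS_pair, LS_single bs y T hT]
      apply pair_marg T hT
      have := dep_ph bs y hf
      simpa using this

theorem LS_ap (bs : V → Cu n) (y : V → Pt n → Ω) (T r : ℕ) (hr : 2 ≤ r) (hT : 1 ≤ T)
    (S S' : Finset V)
    (hS : S' ⊆ S) (hc : S.card ≤ r) (f : (V → Ω) → ℝ) (hf : DependsOn f (S' : Set V))
    (h1 : ∀ z, |f z| ≤ 1) :
    |LS bs y T S f - LS bs y T S' f| ≤ 4 * (r : ℝ) ^ 2 * (113 / 128) ^ T := by
  have hb : (0 : ℝ) ≤ (113 / 128) ^ T := by positivity
  have hr2 : (4 : ℝ) ≤ (r : ℝ) ^ 2 := by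
    have : (2 : ℝ) ≤ r := by exact_mod_cast hr
    nlinarith
  by_cases hp : ∃ pq : V × V, S = {pq.1, pq.2}
  · obtain ⟨pq, hpq⟩ := hp
    have hc2 : S.card ≤ 2 := by
      rw [hpq]
      exact Finset.card_le_two
    rw [LS_ex bs y T hT S S' hS hc2 f hf, sub_self, abs_zero]
    positivity
  · rw [LS_not bs y T S hp]
    have hF1 : ∀ c, |(fun c => f (ph bs y c)) c| ≤ 1 := fun c => h1 _
    have himg : S'.image bs ⊆ S.image bs := Finset.image_subset_image hS
    have hF := dep_ph bs y hf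
    have hcl := loc_cons T (S.image bs) (S'.image bs) himg (fun c => f (ph bs y c)) hF hF1
    have hcard : ((S.image bs).card : ℝ) ≤ r := by
      exact_mod_cast (Finset.card_image_le).trans hc
    have hcl2 : |locL T (S.image bs) (fun c => f (ph bs y c)) -
        locL T (S'.image bs) (fun c => f (ph bs y c))| ≤ 2 * (r : ℝ) ^ 2 * (113 / 128) ^ T := by
      refine hcl.trans ?_
      gcongr
    by_cases hp' : ∃ pq : V × V, S' = {pq.1, pq.2}
    · obtain ⟨pq, hpq⟩ := hp'
      have himg2 : S'.image bs = {bs pq.1, bs pq.2} := by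
        rw [hpq, Finset.image_insert, Finset.image_singleton]
      have hL : LS bs y T S' f = pairL T (bs pq.1) (bs pq.2) (fun c => f (ph bs y c)) := by
        rw [hpq, LS_pair]
      rw [hL]
      have hpc := pair_close T hT (bs pq.1) (bs pq.2) (fun c => f (ph bs y c)) hF1
      rw [himg2] at hcl2
      calc |locL T (S.image bs) (fun c => f (ph bs y c)) -
            pairL T (bs pq.1) (bs pq.2) (fun c => f (ph bs y c))|
          ≤ |locL T (S.image bs) (fun c => f (ph bs y c)) -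
              locL T {bs pq.1, bs pq.2} (fun c => f (ph bs y c))| +
            |locL T {bs pq.1, bs pq.2} (fun c => f (ph bs y c)) -
              pairL T (bs pq.1) (bs pq.2) (fun c => f (ph bs y c))| := abs_sub_le _ _ _
        _ ≤ 2 * (r : ℝ) ^ 2 * (113 / 128) ^ T + 8 * (113 / 128) ^ T := add_le_add hcl2 hpc
        _ ≤ 4 * (r : ℝ) ^ 2 * (113 / 128) ^ T := by nlinarith
    · rw [LS_not bs y T S' hp']
      refine hcl2.trans ?_
      nlinarith

/-- the sum over the strings with the same base point -/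
noncomputable def HH (bs : V → Cu n) (y : V → Pt n → Ω) (h : V → Ω → ℝ) (x : Cu n) (g : Pt n) : ℝ :=
  ∑ p ∈ Finset.univ.filter (fun p => bs p = x), h p (y p g)

theorem sum_one (bs : V → Cu n) (y : V → Pt n → Ω) (h : V → Ω → ℝ) :
    ∑ x, avgL Finset.univ (fun c : Cu n → Pt n => HH bs y h x (c x)) =
      ∑ p, avgL Finset.univ (fun c : Cu n → Pt n => h p (y p (c (bs p)))) := by
  rw [← Finset.sum_fiberwise Finset.univ bs
    (fun p => avgL Finset.univ (fun c : Cu n → Pt n => h p (y p (c (bs p)))))]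
  refine Finset.sum_congr rfl fun x _ => ?_
  have h1 : (fun c : Cu n → Pt n => HH bs y h x (c x)) =
      ∑ p ∈ Finset.univ.filter (fun p => bs p = x),
        (fun c : Cu n → Pt n => h p (y p (c (bs p)))) := by
    funext c
    rw [HH, Finset.sum_apply]
    refine Finset.sum_congr rfl fun p hp => ?_
    rw [(Finset.mem_filter.1 hp).2]
  rw [h1, map_sum]

theorem sum_two (bs : V → Cu n) (y : V → Pt n → Ω) (T : ℕ) (h : V → Ω → ℝ) :
    ∑ x, ∑ x', pairL T x x' (fun c : Cu n → Pt n => HH bs y h x (c x) * HH bs y h x' (c x')) =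
      ∑ p, ∑ q, pairL T (bs p) (bs q)
        (fun c : Cu n → Pt n => h p (y p (c (bs p))) * h q (y q (c (bs q)))) := by
  rw [← Finset.sum_fiberwise Finset.univ bs
    (fun p => ∑ q, pairL T (bs p) (bs q)
        (fun c : Cu n → Pt n => h p (y p (c (bs p))) * h q (y q (c (bs q)))))]
  refine Finset.sum_congr rfl fun x _ => ?_
  have h2 : ∀ p ∈ Finset.univ.filter (fun p => bs p = x), ∑ q, pairL T (bs p) (bs q)
        (fun c : Cu n → Pt n => h p (y p (c (bs p))) * h q (y q (c (bs q)))) =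
      ∑ x', pairL T x x'
        (fun c : Cu n → Pt n => h p (y p (c x)) * HH bs y h x' (c x')) := by
    intro p hp
    have hpx := (Finset.mem_filter.1 hp).2
    rw [← Finset.sum_fiberwise Finset.univ bs
      (fun q => pairL T (bs p) (bs q)
        (fun c : Cu n → Pt n => h p (y p (c (bs p))) * h q (y q (c (bs q)))))]
    refine Finset.sum_congr rfl fun x' _ => ?_
    have h3 : (fun c : Cu n → Pt n => h p (y p (c x)) * HH bs y h x' (c x')) =
        ∑ q ∈ Finset.univ.filter (fun q => bs q = x'),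
          (fun c : Cu n → Pt n => h p (y p (c (bs p))) * h q (y q (c (bs q)))) := by
      funext c
      rw [HH, Finset.sum_apply, Finset.mul_sum]
      refine Finset.sum_congr rfl fun q hq => ?_
      rw [(Finset.mem_filter.1 hq).2, hpx]
    rw [h3, map_sum]
    refine Finset.sum_congr rfl fun q hq => ?_
    rw [(Finset.mem_filter.1 hq).2, hpx]
  rw [Finset.sum_congr rfl h2, Finset.sum_comm]
  refine Finset.sum_congr rfl fun x' _ => ?_
  have h4 : (fun c : Cu n → Pt n => HH bs y h x (c x) * HH bs y h x' (c x')) =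
      ∑ p ∈ Finset.univ.filter (fun p => bs p = x),
        (fun c : Cu n → Pt n => h p (y p (c x)) * HH bs y h x' (c x')) := by
    funext c
    rw [Finset.sum_apply, ← Finset.sum_mul]
    rfl
  rw [h4, map_sum]

theorem LS_psd (bs : V → Cu n) (y : V → Pt n → Ω) (T : ℕ) (hT : 1 ≤ T) (c : ℝ)
    (h : V → Ω → ℝ) :
    0 ≤ c ^ 2 + 2 * c * ∑ p, LS bs y T {p} (fun z => h p (z p)) +
      ∑ p, ∑ q, LS bs y T {p, q} (fun z => h p (z p) * h q (z q)) := by
  have h0 := pair_psd T hT c (HH bs y h)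
  rw [sum_one, sum_two] at h0
  have e1 : ∑ p, LS bs y T {p} (fun z => h p (z p)) =
      ∑ p, avgL Finset.univ (fun c : Cu n → Pt n => h p (y p (c (bs p)))) :=
    Finset.sum_congr rfl fun p _ => LS_single bs y T hT p _
  have e2 : ∑ p, ∑ q, LS bs y T {p, q} (fun z => h p (z p) * h q (z q)) =
      ∑ p, ∑ q, pairL T (bs p) (bs q)
        (fun c : Cu n → Pt n => h p (y p (c (bs p))) * h q (y q (c (bs q)))) :=
    Finset.sum_congr rfl fun p _ => Finset.sum_congr rfl fun q _ => LS_pair bs y T p q _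
  rw [e1, e2]
  exact h0

end FamAux

theorem fam {n : ℕ} {V Ω : Type} [Fintype V] [DecidableEq V] [Fintype Ω] [Nonempty Ω]
    (bs : V → Cu n) (y : V → Pt n → Ω) (r T : ℕ) (hr : 2 ≤ r) (hT : 1 ≤ T) (κ : ℝ) (hκ1 : κ ≤ 1)
    (hsm : 4 ^ r * (Fintype.card Ω : ℝ) ^ r * (4 * (r : ℝ) ^ 2 * (113 / 128) ^ T) ≤ κ) :
    ∃ E : ((V → Ω) → ℝ) →ₗ[ℝ] ℝ, IsLocalExpectation r E ∧ MomentPSD E ∧
      ∀ (p q : V) (f : (V → Ω) → ℝ), DependsOn f (({p, q} : Finset V) : Set V) →
        (∀ z, 0 ≤ f z) →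
        (1 - κ) * pairL T (bs p) (bs q) (fun c => f (fun v => y v (c (bs v)))) ≤ E f := by
  have hξ : (0 : ℝ) ≤ 4 * (r : ℝ) ^ 2 * (113 / 128) ^ T := by positivity
  have hκ0 : 0 ≤ κ := le_trans (by positivity) hsm
  obtain ⟨E, hE1, hE2, hE3⟩ := smooth r hr κ (4 * (r : ℝ) ^ 2 * (113 / 128) ^ T) hκ0 hκ1 hξ hsm
    (FamAux.LS bs y T) (FamAux.LS_pos bs y T hT) (fun S S' hS hc f hf => FamAux.LS_ex bs y T hT S S' hS hc f hf)
    (fun S S' hS hc f hf h1 => FamAux.LS_ap bs y T r hr hT S S' hS hc f hf h1)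
    (fun c h => FamAux.LS_psd bs y T hT c h)
  refine ⟨E, hE1, hE2, fun p q f hf h0 => ?_⟩
  have h := hE3 p q f hf h0
  rw [FamAux.LS_pair] at h
  exact h

end Pool.Agent.Lib.P325sdp
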