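import Pool.Agent.Lib.P325sdp.Defs

/-!
Module KerF (1h). Properties of the kernel. Write u = ((1+s)/2)^T, v = (1/2)^T, so ker = (u - v)/(1 - v), v <= 1/2.
PROOF. ker_zero, ker_one: direct. ker_nonneg: u >= v. ker_le: (u - v)/(1 - v) <= u since u <= 1. ker_ge:
u - ker = v (1 - u)/(1 - v) <= 2 v. ker_le_div: ker is convex on [0, s0] with ker 0 = 0; direct: ker s = ∑ w_j s^(j+1)
(ker_sum), s^(j+1) <= s s0^j = (s/s0) s0^(j+1). ker_sum: binomial theorem (add_pow), ((1+s)/2)^T =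
(1/2)^T ∑_{i=0}^T choose T i s^i, the term i = 0 is v. ker_lin: by ker_ge and Bernoulli (one_add_mul_le_pow):
u = (1 - (1-s)/2)^T >= 1 - T (1-s)/2.
-/

open scoped BigOperators

namespace Pool.Agent.Lib.P325sdp

theorem KerFAux.half (T : ℕ) (hT : 1 ≤ T) : (1 / 2 : ℝ) ^ T ≤ 1 / 2 := by
  calc (1 / 2 : ℝ) ^ T ≤ (1 / 2 : ℝ) ^ 1 :=
        pow_le_pow_of_le_one (by norm_num) (by norm_num) hT
    _ = 1 / 2 := by norm_num

theorem KerFAux.den (T : ℕ) (hT : 1 ≤ T) : (0 : ℝ) < 1 - (1 / 2) ^ T := by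
  have := KerFAux.half T hT
  linarith

theorem KerFAux.vpos (T : ℕ) : (0 : ℝ) < (1 / 2) ^ T := by positivity

theorem KerFAux.ule (T : ℕ) (s : ℝ) (hs : 0 ≤ s) (hs1 : s ≤ 1) : ((1 + s) / 2) ^ T ≤ 1 :=
  pow_le_one₀ (by linarith) (by linarith)

theorem ker_zero (T : ℕ) : ker T 0 = 0 := by
  unfold ker
  simp

theorem ker_one (T : ℕ) (hT : 1 ≤ T) : ker T 1 = 1 := by
  have h := KerFAux.den T hT
  unfold ker
  have h1 : ((1 + 1 : ℝ) / 2) ^ T = 1 := by norm_num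
  rw [h1]
  exact div_self h.ne'

theorem ker_nonneg (T : ℕ) (hT : 1 ≤ T) (s : ℝ) (hs : 0 ≤ s) : 0 ≤ ker T s := by
  have h := KerFAux.den T hT
  unfold ker
  apply div_nonneg _ h.le
  have : (1 / 2 : ℝ) ^ T ≤ ((1 + s) / 2) ^ T :=
    pow_le_pow_left₀ (by norm_num) (by linarith) T
  linarith

theorem ker_le (T : ℕ) (hT : 1 ≤ T) (s : ℝ) (hs : 0 ≤ s) (hs1 : s ≤ 1) :
    ker T s ≤ ((1 + s) / 2) ^ T := by
  have h := KerFAux.den T hT
  have hv := KerFAux.vpos T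
  have hu := KerFAux.ule T s hs hs1
  unfold ker
  rw [div_le_iff₀ h]
  nlinarith

theorem ker_ge (T : ℕ) (hT : 1 ≤ T) (s : ℝ) (hs : 0 ≤ s) (hs1 : s ≤ 1) :
    ((1 + s) / 2) ^ T - 2 * (1 / 2) ^ T ≤ ker T s := by
  have h := KerFAux.den T hT
  have hh := KerFAux.half T hT
  have hv := KerFAux.vpos T
  have hu := KerFAux.ule T s hs hs1
  have hu0 : (0 : ℝ) ≤ ((1 + s) / 2) ^ T := by positivity
  unfold ker
  rw [le_div_iff₀ h]
  nlinarith [mul_nonneg hv.le hu0, mul_nonneg hv.le (sub_nonneg.2 hh)]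

theorem ker_sum (T : ℕ) : ∃ w : ℕ → ℝ, (1 ≤ T → ∀ j, 0 ≤ w j) ∧
    ∀ s, ker T s = ∑ j ∈ Finset.range T, w j * s ^ (j + 1) := by
  refine ⟨fun j => (1 / 2) ^ T * (T.choose (j + 1)) / (1 - (1 / 2) ^ T), ?_, ?_⟩
  · intro hT j
    have h := KerFAux.den T hT
    positivity
  · intro s
    have h1 : ((1 + s) / 2) ^ T
        = (1 / 2) ^ T + ∑ j ∈ Finset.range T, (1 / 2) ^ T * (T.choose (j + 1)) * s ^ (j + 1) := by
      have e : ((1 + s) / 2) ^ T = (1 / 2) ^ T * (s + 1) ^ T := by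
        rw [← mul_pow]; congr 1; ring
      rw [e, add_pow, Finset.mul_sum, Finset.sum_range_succ']
      simp only [one_pow, mul_one, pow_zero, Nat.choose_zero_right, Nat.cast_one]
      rw [add_comm]
      congr 1
      apply Finset.sum_congr rfl
      intro j _
      ring
    unfold ker
    rw [h1, add_sub_cancel_left, Finset.sum_div]
    apply Finset.sum_congr rfl
    intro j _
    ring

theorem ker_le_div (T : ℕ) (hT : 1 ≤ T) (s s0 : ℝ) (hs : 0 ≤ s) (hs0 : 0 < s0) (h : s ≤ s0) :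
    ker T s ≤ s / s0 * ker T s0 := by
  obtain ⟨w, hw, hk⟩ := ker_sum T
  rw [hk s, hk s0, Finset.mul_sum]
  apply Finset.sum_le_sum
  intro j _
  have h1 : s ^ (j + 1) ≤ s / s0 * s0 ^ (j + 1) := by
    have e : s / s0 * s0 ^ (j + 1) = s * s0 ^ j := by
      rw [pow_succ]; field_simp
    rw [e, pow_succ, mul_comm]
    exact mul_le_mul_of_nonneg_left (pow_le_pow_left₀ hs h j) hs
  calc w j * s ^ (j + 1) ≤ w j * (s / s0 * s0 ^ (j + 1)) :=
        mul_le_mul_of_nonneg_left h1 (hw hT j)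
    _ = s / s0 * (w j * s0 ^ (j + 1)) := by ring

theorem ker_lin (T : ℕ) (hT : 1 ≤ T) (s : ℝ) (hs : 0 ≤ s) (hs1 : s ≤ 1) :
    1 - T * (1 - s) / 2 - 2 * (1 / 2) ^ T ≤ ker T s := by
  have h1 := ker_ge T hT s hs hs1
  have h2 := one_add_mul_le_pow (a := -((1 - s) / 2)) (by linarith) T
  have e : (1 + -((1 - s) / 2)) = (1 + s) / 2 := by ring
  rw [e] at h2
  have e2 : (1 : ℝ) + T * -((1 - s) / 2) = 1 - T * (1 - s) / 2 := by ring
  rw [e2] at h2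
  linarith

end Pool.Agent.Lib.P325sdp
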