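import Pool.Agent.Lib.P325sdp.UnifSol
import Pool.Agent.Lib.P325sdp.Rho
import Pool.Agent.Lib.P325sdp.SigP

/-!
Module LocC (1.8h; black boxes unif_sol, Rho, sig_prob). The local laws are approximately consistent.
PROOF. avgL_pos: direct. good_equiv: Rel ω x x: al x x = 0 (al_self), rho 0 = 1, agr ω 0. Symmetric: al_symm and
x + x' = x' + x. Transitive and cocycle on X if Good ω X: al_add gives al x x'' = al x x' + al x' x'' and
|rho (x + x'' + aff (al x x'') 0)| >= 3/4; x + x'' + aff (al x x'') 0 = (x + x' + aff (al x x') 0) +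
(x' + x'' + aff (al x' x'') 0) agrees on ω as both summands do. loc_pos: solX is nonempty (unif_sol with X' = X, or univ),
average of positive functionals. loc_cons: if Good ω X then Good ω X' (subset) and unif_sol gives
avgL (solX ω X) F = avgL (solX ω X') F. Otherwise the difference is at most 2 (|avgL s F| <= 1). The number of ω with
not Good ω X is at most the sum over x, x' ∈ X with |rho (x + x' + aff (al x x') 0)| < 7/8 of the number of ω with
agr ω (x + x' + aff (al x x') 0), which is ((1 + rho^2)/2)^T |Ω| <= (113/128)^T |Ω| (sig_prob, (1 + 49/64)/2 = 113/128).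
-/

open scoped BigOperators

namespace Pool.Agent.Lib.P325sdp

open Pool.Agent.Lib.P325x (Pt Cu aff cor)

namespace LocCAux

open Pool.Agent.Lib.P325x (aff_add cu_add_self)

variable {n : ℕ}

theorem agr_zero {T : ℕ} (ω : Fin T → Pt n × Pt n) : agr ω (0 : Cu n) := fun _ => rfl

theorem agr_add {T : ℕ} {ω : Fin T → Pt n × Pt n} {f g : Cu n} (hf : agr ω f) (hg : agr ω g) :
    agr ω (f + g) := by
  intro j
  rw [Pi.add_apply, Pi.add_apply, hf j, hg j]

theorem aff_zero_zero : (aff 0 0 : Cu n) = 0 := by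
  ext a
  simp [aff]

theorem rho_zero : rho (0 : Cu n) = 1 := by
  have h := rho_aff (0 : Pt n)
  rw [if_pos rfl, aff_zero_zero] at h
  exact h

theorem rel_self {T : ℕ} (ω : Fin T → Pt n × Pt n) (x : Cu n) : Rel ω x x := by
  have h : x + x + aff (al x x) 0 = 0 := by
    rw [al_self, aff_zero_zero, cu_add_self, add_zero]
  refine ⟨?_, ?_⟩
  · rw [h, rho_zero]
    norm_num
  · rw [h]
    exact agr_zero ω

theorem rel_symm {T : ℕ} {ω : Fin T → Pt n × Pt n} {x x' : Cu n} (h : Rel ω x x') :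
    Rel ω x' x := by
  unfold Rel at h ⊢
  rw [al_symm x x', add_comm x' x]
  exact h

theorem rel_trans {T : ℕ} {ω : Fin T → Pt n × Pt n} {X : Finset (Cu n)} (hG : Good ω X)
    {x x' x'' : Cu n} (hx : x ∈ X) (hx' : x' ∈ X) (hx'' : x'' ∈ X) (h : Rel ω x x')
    (h' : Rel ω x' x'') : Rel ω x x'' ∧ al x x'' = al x x' + al x' x'' := by
  obtain ⟨h1, h2⟩ := al_add x x' x'' (hG x hx x' hx' h) (hG x' hx' x'' hx'' h')
  refine ⟨⟨?_, ?_⟩, h2⟩
  · rw [h2]
    exact h1
  · have h4 : (aff (al x x' + al x' x'') 0 : Cu n) = aff (al x x') 0 + aff (al x' x'') 0 := by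
      rw [← aff_add, add_zero]
    have h3 : x + x'' + aff (al x x'') 0 =
        (x + x' + aff (al x x') 0) + (x' + x'' + aff (al x' x'') 0) := by
      rw [h2, h4]
      calc x + x'' + (aff (al x x') 0 + aff (al x' x'') 0)
          = (x + x'' + (aff (al x x') 0 + aff (al x' x'') 0)) + (x' + x') := by
            rw [cu_add_self, add_zero]
        _ = _ := by abel
    rw [h3]
    exact agr_add h.2 h'.2

theorem good_mono {T : ℕ} {ω : Fin T → Pt n × Pt n} {X X' : Finset (Cu n)} (hX : X' ⊆ X)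
    (h : Good ω X) : Good ω X' :=
  fun x hx x' hx' hR => h x (hX hx) x' (hX hx') hR

theorem solX_good {T : ℕ} {ω : Fin T → Pt n × Pt n} {X : Finset (Cu n)} (h : Good ω X) :
    solX ω X = sol (Rel ω) al X := by
  unfold solX
  exact if_pos h

theorem solX_bad {T : ℕ} {ω : Fin T → Pt n × Pt n} {X : Finset (Cu n)} (h : ¬ Good ω X)
    (c : Cu n → Pt n) : c ∈ solX ω X := by
  classical
  unfold solX
  rw [if_neg h]
  exact Finset.mem_univ c

theorem locL_apply (T : ℕ) (X : Finset (Cu n)) (F : (Cu n → Pt n) → ℝ) :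
    locL T X F = (Fintype.card (Fin T → Pt n × Pt n) : ℝ)⁻¹ *
      ∑ ω : Fin T → Pt n × Pt n, avgL (solX ω X) F := by
  unfold locL
  rw [LinearMap.smul_apply, LinearMap.sum_apply, smul_eq_mul]

theorem card_pos_real (n T : ℕ) : (0 : ℝ) < (Fintype.card (Fin T → Pt n × Pt n) : ℝ) := by
  exact_mod_cast Fintype.card_pos

open Classical in
/-- the indicator of the bad event for `x` and `x'` -/
noncomputable def bad {T : ℕ} (x x' : Cu n) (ω : Fin T → Pt n × Pt n) : ℝ :=
  if Rel ω x x' ∧ |rho (x + x' + aff (al x x') 0)| < 7 / 8 then 1 else 0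

theorem bad_nonneg {T : ℕ} (x x' : Cu n) (ω : Fin T → Pt n × Pt n) : 0 ≤ bad x x' ω := by
  unfold bad
  split_ifs
  · exact zero_le_one
  · exact le_rfl

theorem sum_bad (T : ℕ) (x x' : Cu n) :
    ∑ ω : Fin T → Pt n × Pt n, bad x x' ω ≤
      (113 / 128) ^ T * (Fintype.card (Fin T → Pt n × Pt n) : ℝ) := by
  classical
  by_cases h : |rho (x + x' + aff (al x x') 0)| < 7 / 8
  · have h1 : ∀ ω : Fin T → Pt n × Pt n, bad x x' ω ≤
        if agr ω (x + x' + aff (al x x') 0) then 1 else 0 := by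
      intro ω
      unfold bad
      by_cases h2 : Rel ω x x' ∧ |rho (x + x' + aff (al x x') 0)| < 7 / 8
      · rw [if_pos h2, if_pos h2.1.2]
      · rw [if_neg h2]
        split_ifs
        · exact zero_le_one
        · exact le_rfl
    have h2 : ∑ ω : Fin T → Pt n × Pt n,
        (if agr ω (x + x' + aff (al x x') 0) then (1 : ℝ) else 0) =
        (Nat.card {ω : Fin T → Pt n × Pt n // agr ω (x + x' + aff (al x x') 0)} : ℝ) := by
      rw [Finset.sum_boole, Nat.card_eq_fintype_card, Fintype.card_subtype]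
    refine (Finset.sum_le_sum fun ω _ => h1 ω).trans ?_
    rw [h2, sig_prob]
    refine mul_le_mul_of_nonneg_right ?_ (card_pos_real n T).le
    refine pow_le_pow_left₀ (by positivity) ?_ T
    have h3 : rho (x + x' + aff (al x x') 0) ^ 2 ≤ (7 / 8) ^ 2 := by
      rw [← sq_abs]
      exact pow_le_pow_left₀ (abs_nonneg _) h.le 2
    linarith
  · have h1 : ∀ ω : Fin T → Pt n × Pt n, bad x x' ω = 0 := by
      intro ω
      unfold bad
      exact if_neg fun h2 => h h2.2
    rw [Finset.sum_eq_zero fun ω _ => h1 ω]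
    have := card_pos_real n T
    positivity

theorem one_le_bad {T : ℕ} {ω : Fin T → Pt n × Pt n} {X : Finset (Cu n)} (h : ¬ Good ω X) :
    1 ≤ ∑ x ∈ X, ∑ x' ∈ X, bad x x' ω := by
  unfold Good at h
  push Not at h
  obtain ⟨x, hx, x', hx', hR, h1⟩ := h
  have h2 : bad x x' ω = 1 := by
    unfold bad
    exact if_pos ⟨hR, h1⟩
  calc (1 : ℝ) = bad x x' ω := h2.symm
    _ ≤ ∑ x' ∈ X, bad x x' ω :=
      Finset.single_le_sum (f := fun x' => bad x x' ω) (fun i _ => bad_nonneg x i ω) hx'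
    _ ≤ _ := Finset.single_le_sum (f := fun x => ∑ x' ∈ X, bad x x' ω)
      (fun i _ => Finset.sum_nonneg fun j _ => bad_nonneg i j ω) hx

end LocCAux

theorem avgL_apply {Z : Type} (s : Finset Z) (F : Z → ℝ) :
    avgL s F = (s.card : ℝ)⁻¹ * ∑ c ∈ s, F c :=
  UnifSolAux.avgL_apply s F

theorem avgL_pos {Z : Type} (s : Finset Z) (hs : s.Nonempty) : IsPos (avgL s) := by
  refine ⟨?_, ?_⟩
  · rw [avgL_apply, Finset.sum_const, nsmul_eq_mul, mul_one]
    have h : (0 : ℝ) < (s.card : ℝ) := by exact_mod_cast Finset.card_pos.2 hs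
    exact inv_mul_cancel₀ h.ne'
  · intro f hf
    rw [avgL_apply]
    exact mul_nonneg (inv_nonneg.2 (Nat.cast_nonneg _)) (Finset.sum_nonneg fun c _ => hf c)

theorem abs_le_of_pos {Z : Type} {L : (Z → ℝ) →ₗ[ℝ] ℝ} (hL : IsPos L) (F : Z → ℝ) (M : ℝ)
    (h : ∀ z, |F z| ≤ M) : |L F| ≤ M := by
  have h0 : L (fun _ => M) = M := by
    have h1 : (fun _ : Z => M) = M • (fun _ : Z => (1 : ℝ)) := by
      funext z
      simp
    rw [h1, map_smul, hL.one, smul_eq_mul, mul_one]
  have h2 : 0 ≤ L ((fun _ => M) - F) := by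
    apply hL.nonneg
    intro z
    rw [Pi.sub_apply]
    have := (abs_le.1 (h z)).2
    linarith
  have h3 : 0 ≤ L ((fun _ => M) + F) := by
    apply hL.nonneg
    intro z
    rw [Pi.add_apply]
    have := (abs_le.1 (h z)).1
    linarith
  rw [map_sub, h0] at h2
  rw [map_add, h0] at h3
  exact abs_le.2 ⟨by linarith, by linarith⟩

variable {n : ℕ}

theorem good_equiv {T : ℕ} (ω : Fin T → Pt n × Pt n) (X : Finset (Cu n)) (h : Good ω X) :
    (∀ x ∈ X, Rel ω x x) ∧ (∀ x ∈ X, ∀ x' ∈ X, Rel ω x x' → Rel ω x' x) ∧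
      (∀ x ∈ X, ∀ x' ∈ X, ∀ x'' ∈ X, Rel ω x x' → Rel ω x' x'' → Rel ω x x'') ∧
      ∀ x ∈ X, ∀ x' ∈ X, ∀ x'' ∈ X, Rel ω x x' → Rel ω x' x'' →
        al x x'' = al x x' + al x' x'' := by
  refine ⟨fun x _ => LocCAux.rel_self ω x, fun x _ x' _ hR => LocCAux.rel_symm hR, ?_, ?_⟩
  · intro x hx x' hx' x'' hx'' h1 h2
    exact (LocCAux.rel_trans h hx hx' hx'' h1 h2).1
  · intro x hx x' hx' x'' hx'' h1 h2
    exact (LocCAux.rel_trans h hx hx' hx'' h1 h2).2

theorem solX_nonempty {T : ℕ} (ω : Fin T → Pt n × Pt n) (X : Finset (Cu n)) :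
    (solX ω X).Nonempty := by
  by_cases h : Good ω X
  · rw [LocCAux.solX_good h]
    obtain ⟨h1, h2, h3, h4⟩ := good_equiv ω X h
    exact (unif_sol (Rel ω) al X X (Finset.Subset.refl X) h1 h2 h3 h4).1
  · exact ⟨0, LocCAux.solX_bad h 0⟩

theorem loc_pos (T : ℕ) (X : Finset (Cu n)) : IsPos (locL T X) := by
  have hc := LocCAux.card_pos_real n T
  refine ⟨?_, ?_⟩
  · rw [LocCAux.locL_apply,
      Finset.sum_congr rfl fun ω _ => (avgL_pos (solX ω X) (solX_nonempty ω X)).one,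
      Finset.sum_const, nsmul_eq_mul, mul_one, Finset.card_univ]
    exact inv_mul_cancel₀ hc.ne'
  · intro f hf
    rw [LocCAux.locL_apply]
    exact mul_nonneg (inv_nonneg.2 hc.le) (Finset.sum_nonneg fun ω _ =>
      (avgL_pos (solX ω X) (solX_nonempty ω X)).nonneg f hf)

theorem loc_cons (T : ℕ) (X X' : Finset (Cu n)) (hX : X' ⊆ X) (F : (Cu n → Pt n) → ℝ)
    (hF : DependsOn F (X' : Set (Cu n))) (h1 : ∀ c, |F c| ≤ 1) :
    |locL T X F - locL T X' F| ≤ 2 * (X.card : ℝ) ^ 2 * (113 / 128) ^ T := by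
  have hc := LocCAux.card_pos_real n T
  have hω : ∀ ω : Fin T → Pt n × Pt n, |avgL (solX ω X) F - avgL (solX ω X') F| ≤
      2 * ∑ x ∈ X, ∑ x' ∈ X, LocCAux.bad x x' ω := by
    intro ω
    by_cases h : Good ω X
    · obtain ⟨h2, h3, h4, h5⟩ := good_equiv ω X h
      rw [LocCAux.solX_good h, LocCAux.solX_good (LocCAux.good_mono hX h),
        (unif_sol (Rel ω) al X X' hX h2 h3 h4 h5).2 F hF, sub_self, abs_zero]
      exact mul_nonneg zero_le_two (Finset.sum_nonneg fun x _ =>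
        Finset.sum_nonneg fun x' _ => LocCAux.bad_nonneg x x' ω)
    · have h2 := LocCAux.one_le_bad h
      have h3 := abs_le.1 (abs_le_of_pos (avgL_pos (solX ω X) (solX_nonempty ω X)) F 1 h1)
      have h4 := abs_le.1 (abs_le_of_pos (avgL_pos (solX ω X') (solX_nonempty ω X')) F 1 h1)
      refine abs_le.2 ⟨by linarith, by linarith⟩
  rw [LocCAux.locL_apply, LocCAux.locL_apply, ← mul_sub, ← Finset.sum_sub_distrib, abs_mul,
    abs_of_pos (inv_pos.2 hc), inv_mul_le_iff₀ hc]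
  calc |∑ ω : Fin T → Pt n × Pt n, (avgL (solX ω X) F - avgL (solX ω X') F)|
      ≤ ∑ ω : Fin T → Pt n × Pt n, |avgL (solX ω X) F - avgL (solX ω X') F| :=
        Finset.abs_sum_le_sum_abs _ _
    _ ≤ ∑ ω : Fin T → Pt n × Pt n, 2 * ∑ x ∈ X, ∑ x' ∈ X, LocCAux.bad x x' ω :=
        Finset.sum_le_sum fun ω _ => hω ω
    _ = 2 * ∑ x ∈ X, ∑ x' ∈ X, ∑ ω : Fin T → Pt n × Pt n, LocCAux.bad x x' ω := by
        rw [← Finset.mul_sum, Finset.sum_comm]
        congr 1
        exact Finset.sum_congr rfl fun x _ => Finset.sum_comm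
    _ ≤ 2 * ∑ x ∈ X, ∑ x' ∈ X, (113 / 128) ^ T * (Fintype.card (Fin T → Pt n × Pt n) : ℝ) := by
        refine mul_le_mul_of_nonneg_left ?_ zero_le_two
        exact Finset.sum_le_sum fun x _ => Finset.sum_le_sum fun x' _ => LocCAux.sum_bad T x x'
    _ = _ := by
        rw [Finset.sum_const, Finset.sum_const, nsmul_eq_mul, nsmul_eq_mul]
        ring

end Pool.Agent.Lib.P325sdp
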