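import Pool.Agent.Lib.P325sdp.LocC
import Pool.Agent.Lib.P325sdp.KerF

/-!
Module PairA (1.3h; black boxes unif_sol, ker facts, Rho, LocC). The exact law of a pair.
PROOF. ker_sum_le: ker s <= s (ker_le_div with s0 = 1, ker_one), rho_parseval. pair_symm: c x = c x' + d iff
c x' = c x + d (CharTwo), x + x' = x' + x. eqs_avg: for x ≠ x', unif_sol with R a b := a = b ∨ (a = x ∧ b = x') ∨
(a = x' ∧ b = x), al a b := if a = b then 0 else d, X = {x, x'}, X' = {x}: sol R al X = eqs x x' d and
sol R al X' = univ. So eqs x x' d is nonempty and avgL (eqs x x' d) F = avgL univ F for F depending on x.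
pair_self: for x = x': rho (x + x + aff d 0) = 1 if d = 0, else 0, ker_zero, ker_one, eqs x x 0 = univ.
pair_pos: all coefficients are >= 0 with sum 1; for x ≠ x' all eqs are nonempty; x = x' is pair_self.
pair_marg: eqs_avg and pair_self.
-/

open scoped BigOperators

namespace Pool.Agent.Lib.P325sdp

open Pool.Agent.Lib.P325x (Pt Cu aff cor)

variable {n : ℕ}

theorem ker_sum_le (T : ℕ) (hT : 1 ≤ T) (f : Cu n) :
    ∑ d : Pt n, ker T (rho (f + aff d 0) ^ 2) ≤ 1 := by
  refine le_of_le_of_eq (Finset.sum_le_sum fun d _ => ?_) (rho_parseval f)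
  have h1 : rho (f + aff d 0) ^ 2 ≤ 1 := by
    rw [sq_le_one_iff_abs_le_one]
    exact abs_rho_le _
  have := ker_le_div T hT (rho (f + aff d 0) ^ 2) 1 (sq_nonneg _) one_pos h1
  rwa [ker_one T hT, div_one, mul_one] at this

namespace PairAAux

/-- the relation pairing `x` and `x'` -/
def R (x x' a b : Cu n) : Prop := a = b ∨ (a = x ∧ b = x') ∨ (a = x' ∧ b = x)

open Classical in
/-- the alignment `d` off the diagonal -/
noncomputable def A (d : Pt n) (a b : Cu n) : Pt n := if a = b then 0 else d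

theorem A_self (d : Pt n) (a : Cu n) : A d a a = 0 := by simp [A]

theorem A_ne (d : Pt n) {a b : Cu n} (h : a ≠ b) : A d a b = d := by simp [A, h]

theorem mem_eqs (x x' : Cu n) (d : Pt n) (c : Cu n → Pt n) :
    c ∈ eqs x x' d ↔ c x = c x' + d := by
  classical
  unfold eqs
  simp

theorem mem_sol (R' : Cu n → Cu n → Prop) (al' : Cu n → Cu n → Pt n) (X : Finset (Cu n))
    (c : Cu n → Pt n) :
    c ∈ sol R' al' X ↔ ∀ x ∈ X, ∀ x' ∈ X, R' x x' → c x = c x' + al' x x' := by
  classical
  unfold sol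
  simp

theorem sol_pair (x x' : Cu n) (h : x ≠ x') (d : Pt n) :
    sol (R x x') (A d) {x, x'} = eqs x x' d := by
  ext c
  rw [mem_sol, mem_eqs]
  constructor
  · intro hc
    have := hc x (by simp) x' (by simp) (Or.inr (Or.inl ⟨rfl, rfl⟩))
    rwa [A_ne d h] at this
  · intro hc a ha b hb _
    rw [Finset.mem_insert, Finset.mem_singleton] at ha hb
    rcases ha with rfl | rfl <;> rcases hb with rfl | rfl
    · rw [A_self, add_zero]
    · rw [A_ne d h, hc]
    · rw [A_ne d h.symm, hc, add_assoc, P325x.pt_add_self, add_zero]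
    · rw [A_self, add_zero]

theorem sol_single (x x' : Cu n) (d : Pt n) :
    sol (R x x') (A d) {x} = Finset.univ := by
  ext c
  rw [mem_sol]
  constructor
  · intro _
    exact Finset.mem_univ _
  · intro _ a ha b hb _
    rw [Finset.mem_singleton] at ha hb
    rw [ha, hb, A_self, add_zero]

theorem uni (x x' : Cu n) (h : x ≠ x') (d : Pt n) :
    (sol (R x x') (A d) {x, x'}).Nonempty ∧ ∀ F : (Cu n → Pt n) → ℝ,
      DependsOn F (({x} : Finset (Cu n)) : Set (Cu n)) →
      avgL (sol (R x x') (A d) {x, x'}) F = avgL (sol (R x x') (A d) {x}) F := by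
  refine unif_sol (R x x') (A d) {x, x'} {x} (by simp) ?_ ?_ ?_ ?_
  · intro a _
    exact Or.inl rfl
  · intro a _ b _ hab
    rcases hab with h1 | ⟨h1, h2⟩ | ⟨h1, h2⟩
    · exact Or.inl h1.symm
    · exact Or.inr (Or.inr ⟨h2, h1⟩)
    · exact Or.inr (Or.inl ⟨h2, h1⟩)
  · intro a _ b _ c _ hab hbc
    rcases hab with h1 | ⟨h1, h2⟩ | ⟨h1, h2⟩
    · subst h1
      exact hbc
    · rcases hbc with h3 | ⟨h3, h4⟩ | ⟨h3, h4⟩
      · subst h3
        exact Or.inr (Or.inl ⟨h1, h2⟩)
      · exact absurd (h3.symm.trans h2) h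
      · exact Or.inl (h1.trans h4.symm)
    · rcases hbc with h3 | ⟨h3, h4⟩ | ⟨h3, h4⟩
      · subst h3
        exact Or.inr (Or.inr ⟨h1, h2⟩)
      · exact Or.inl (h1.trans h4.symm)
      · exact absurd (h2.symm.trans h3) h
  · intro a ha b hb c hc _ _
    rw [Finset.mem_insert, Finset.mem_singleton] at ha hb hc
    have hd : d + d = 0 := P325x.pt_add_self d
    rcases ha with rfl | rfl <;> rcases hb with rfl | rfl <;> rcases hc with rfl | rfl <;>
      simp [A_self, A_ne d h, A_ne d h.symm, hd]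

end PairAAux

theorem eqs_nonempty (x x' : Cu n) (h : x ≠ x') (d : Pt n) : (eqs x x' d).Nonempty := by
  rw [← PairAAux.sol_pair x x' h d]
  exact (PairAAux.uni x x' h d).1

theorem eqs_avg (x x' : Cu n) (h : x ≠ x') (d : Pt n) (F : (Cu n → Pt n) → ℝ)
    (hF : DependsOn F ({x} : Set (Cu n))) : avgL (eqs x x' d) F = avgL Finset.univ F := by
  rw [← PairAAux.sol_pair x x' h d, ← PairAAux.sol_single x x' d]
  exact (PairAAux.uni x x' h d).2 F (by rwa [Finset.coe_singleton])

theorem pair_symm (T : ℕ) (x x' : Cu n) : pairL T x' x = pairL T x x' := by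
  have he : ∀ d : Pt n, eqs x' x d = eqs x x' d := by
    intro d
    have hd : d + d = 0 := P325x.pt_add_self d
    ext c
    rw [PairAAux.mem_eqs, PairAAux.mem_eqs]
    constructor
    · intro h
      rw [h, add_assoc, hd, add_zero]
    · intro h
      rw [h, add_assoc, hd, add_zero]
  unfold pairL
  simp only [he, add_comm x' x]

theorem pair_self (T : ℕ) (hT : 1 ≤ T) (x : Cu n) : pairL T x x = avgL Finset.univ := by
  have hk : ∀ d : Pt n, ker T (rho (x + x + aff d 0) ^ 2) = if d = 0 then 1 else 0 := by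
    intro d
    rw [P325x.cu_add_self, zero_add, rho_aff]
    by_cases hd : d = 0
    · simp [hd, ker_one T hT]
    · simp [hd, ker_zero T]
  have he : eqs x x (0 : Pt n) = Finset.univ := by
    ext c
    rw [PairAAux.mem_eqs]
    simp
  unfold pairL
  simp only [hk]
  rw [Finset.sum_ite_eq' Finset.univ (0 : Pt n) (fun _ => (1 : ℝ))]
  simp [ite_smul, he]

theorem pair_pos (T : ℕ) (hT : 1 ≤ T) (x x' : Cu n) : IsPos (pairL T x x') := by
  have hu : IsPos (avgL (Finset.univ : Finset (Cu n → Pt n))) :=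
    avgL_pos _ ⟨fun _ => 0, Finset.mem_univ _⟩
  by_cases h : x = x'
  · subst h
    rw [pair_self T hT]
    exact hu
  · have he : ∀ d, IsPos (avgL (eqs x x' d)) := fun d => avgL_pos _ (eqs_nonempty x x' h d)
    have hs := ker_sum_le T hT (x + x')
    constructor
    · simp only [pairL, LinearMap.add_apply, LinearMap.sum_apply, LinearMap.smul_apply,
        (he _).one, hu.one, smul_eq_mul, mul_one]
      ring
    · intro f hf
      simp only [pairL, LinearMap.add_apply, LinearMap.sum_apply, LinearMap.smul_apply,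
        smul_eq_mul]
      refine add_nonneg (Finset.sum_nonneg fun d _ => ?_) ?_
      · exact mul_nonneg (ker_nonneg T hT _ (sq_nonneg _)) ((he d).nonneg f hf)
      · exact mul_nonneg (by linarith) (hu.nonneg f hf)

theorem pair_marg (T : ℕ) (hT : 1 ≤ T) (x x' : Cu n) (F : (Cu n → Pt n) → ℝ)
    (hF : DependsOn F ({x} : Set (Cu n))) : pairL T x x' F = avgL Finset.univ F := by
  by_cases h : x = x'
  · subst h
    rw [pair_self T hT]
  · simp only [pairL, LinearMap.add_apply, LinearMap.sum_apply, LinearMap.smul_apply,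
      smul_eq_mul, eqs_avg x x' h _ F hF]
    rw [← Finset.sum_mul]
    ring

end Pool.Agent.Lib.P325sdp
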