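import Pool.Agent.Lib.P325sdp.Defs
import Pool.Agent.Lib.P325P.Es
import Pool.Agent.Lib.P325P.Cm

/-!
Module Smooth (2h; black boxes in P325P Es.lean, Cm.lean: sum_es, sum_es_univ, es_dep, es_sum, es_empty,
es_zero_of_dep, abs_es_le, cm_of_dep, cm_le_card; see LamB.lean for examples). From approximately consistent local
laws to a Sherali-Adams solution.
PROOF. E f = κ mean f + (1 - κ) ∑_{T, |T| <= r} L T (es T f) (a linear map: es T and mean are linear in f).
(0) E 1 = 1: es T 1 = 0 for T ≠ ∅ (es_zero_of_dep with J = ∅), es ∅ 1 = 1.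
(1) For f depending on D, |D| <= r: es T f = 0 unless T ⊆ D, and ∑_{T ⊆ D} es T f = cm D f = f (sum_es, cm_of_dep).
(2) If moreover |D| <= 2: ∑_T L T (es T f) = ∑_{T ⊆ D} L D (es T f) = L D f by hex (es T f depends on T: es_dep).
So E f = κ mean f + (1 - κ) L D f. This gives the last claim for D = {p, q} (mean f >= 0).
(3) f >= 0 depending on D, |D| <= r: let M = max f (finite type). mean f >= M / |Ω|^|D| >= M / |Ω|^r (cm_le_card:
f y = cm D f y <= |Ω|^|D| mean f). By (1), ∑_{T ⊆ D} L T (es T f) = L D f + ∑_{T ⊆ D} (L T - L D)(es T f) >=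
0 - ∑_{T ⊆ D} ξ 2^|T| M (hap applied to es T f / (2^|T| M), abs_es_le; if M = 0 then f = 0), and
∑_{T ⊆ D} 2^|T| = 3^|D| <= 4^r. So E f >= κ M / |Ω|^r - 4^r ξ M >= 0.
(4) MomentPSD: q^2 = c^2 + 2 c ∑_p h p (z p) + ∑_p ∑_q h p (z p) h q (z q); by linearity and (2) with D = ∅, {p}, {p, q}:
E (q^2) = κ mean (q^2) + (1 - κ) (c^2 + 2 c ∑ L {p} .. + ∑∑ L {p, q} ..) >= 0.
-/

open scoped BigOperators

namespace Pool.Agent.Lib.P325sdp

open Pool.Agent.Lib.P325h (IsLocalExpectation)

namespace SmoothAux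

open Pool.Agent.Lib.P325P

variable {V Ω : Type} [Fintype V] [DecidableEq V] [Fintype Ω]

theorem es_add (T : Finset V) (f g : (V → Ω) → ℝ) : es T (f + g) = es T f + es T g := by
  funext y
  simp only [es, cm, Pi.add_apply]
  rw [← Finset.sum_add_distrib]
  refine Finset.sum_congr rfl fun S _ => ?_
  rw [mean_add, mul_add]

theorem es_smul (T : Finset V) (c : ℝ) (f : (V → Ω) → ℝ) : es T (c • f) = c • es T f := by
  funext y
  simp only [es, cm, Pi.smul_apply, smul_eq_mul]
  rw [Finset.mul_sum]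
  refine Finset.sum_congr rfl fun S _ => ?_
  rw [mean_mul_left]
  ring

/-- the component at `T` as a linear map -/
noncomputable def esL (T : Finset V) : ((V → Ω) → ℝ) →ₗ[ℝ] ((V → Ω) → ℝ) where
  toFun := es T
  map_add' := es_add T
  map_smul' := es_smul T

/-- the mean as a linear map -/
noncomputable def meanL : ((V → Ω) → ℝ) →ₗ[ℝ] ℝ where
  toFun := mean
  map_add' f g := mean_add f g
  map_smul' c f := mean_mul_left c f

/-- the glued functional -/
noncomputable def glue (r : ℕ) (L : Finset V → ((V → Ω) → ℝ) →ₗ[ℝ] ℝ) :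
    ((V → Ω) → ℝ) →ₗ[ℝ] ℝ :=
  ∑ T ∈ Finset.univ.filter (fun T : Finset V => T.card ≤ r), (L T).comp (esL T)

theorem glue_apply (r : ℕ) (L : Finset V → ((V → Ω) → ℝ) →ₗ[ℝ] ℝ) (f : (V → Ω) → ℝ) :
    glue r L f = ∑ T ∈ Finset.univ.filter (fun T : Finset V => T.card ≤ r), L T (es T f) := by
  unfold glue
  rw [LinearMap.sum_apply]
  rfl

variable [Nonempty Ω]

theorem glue_dep (r : ℕ) (L : Finset V → ((V → Ω) → ℝ) →ₗ[ℝ] ℝ) {D : Finset V}
    (hD : D.card ≤ r) {f : (V → Ω) → ℝ} (hf : DependsOn f (D : Set V)) :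
    glue r L f = ∑ T ∈ D.powerset, L T (es T f) := by
  rw [glue_apply]
  symm
  refine Finset.sum_subset (fun T hT => ?_) fun T _ hT => ?_
  · rw [Finset.mem_filter]
    exact ⟨Finset.mem_univ _, (Finset.card_le_card (Finset.mem_powerset.1 hT)).trans hD⟩
  · have h0 : es T f = 0 := by
      funext y
      exact es_zero_of_dep hf (fun h => hT (Finset.mem_powerset.2 h)) y
    rw [h0, map_zero]

theorem sum_L (l : ((V → Ω) → ℝ) →ₗ[ℝ] ℝ) {D : Finset V} {f : (V → Ω) → ℝ}
    (hf : DependsOn f (D : Set V)) : ∑ T ∈ D.powerset, l (es T f) = l f := by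
  rw [← map_sum]
  congr 1
  funext y
  rw [Finset.sum_apply, sum_es, cm_of_dep hf (Finset.Subset.refl D)]

theorem es_const (T : Finset V) (hT : T ≠ ∅) : es T (fun _ : V → Ω => (1 : ℝ)) = 0 := by
  funext y
  refine es_zero_of_dep (J := ∅) (fun _ _ _ => rfl) (fun h => hT (Finset.subset_empty.1 h)) y

end SmoothAux

open SmoothAux in
theorem smooth {V Ω : Type} [Fintype V] [DecidableEq V] [Fintype Ω] [Nonempty Ω] (r : ℕ)
    (hr : 2 ≤ r) (κ ξ : ℝ) (hκ0 : 0 ≤ κ) (hκ1 : κ ≤ 1) (hξ : 0 ≤ ξ)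
    (hsm : 4 ^ r * (Fintype.card Ω : ℝ) ^ r * ξ ≤ κ)
    (L : Finset V → ((V → Ω) → ℝ) →ₗ[ℝ] ℝ) (hpos : ∀ T, IsPos (L T))
    (hex : ∀ S T : Finset V, T ⊆ S → S.card ≤ 2 → ∀ f : (V → Ω) → ℝ,
      DependsOn f (T : Set V) → L S f = L T f)
    (hap : ∀ S T : Finset V, T ⊆ S → S.card ≤ r → ∀ f : (V → Ω) → ℝ,
      DependsOn f (T : Set V) → (∀ z, |f z| ≤ 1) → |L S f - L T f| ≤ ξ)
    (hpsd : ∀ (c : ℝ) (h : V → Ω → ℝ), 0 ≤ c ^ 2 + 2 * c * ∑ p, L {p} (fun z => h p (z p)) +
      ∑ p, ∑ q, L {p, q} (fun z => h p (z p) * h q (z q))) :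
    ∃ E : ((V → Ω) → ℝ) →ₗ[ℝ] ℝ, IsLocalExpectation r E ∧ MomentPSD E ∧
      ∀ (p q : V) (f : (V → Ω) → ℝ), DependsOn f (({p, q} : Finset V) : Set V) →
        (∀ z, 0 ≤ f z) → (1 - κ) * L {p, q} f ≤ E f := by
  have hE : ∀ f : (V → Ω) → ℝ, (κ • (meanL : ((V → Ω) → ℝ) →ₗ[ℝ] ℝ) + (1 - κ) • glue r L) f =
      κ * P325P.mean f + (1 - κ) * glue r L f := fun f => rfl
  have hglue2 : ∀ (D : Finset V), D.card ≤ 2 → ∀ f : (V → Ω) → ℝ, DependsOn f (D : Set V) →
      glue r L f = L D f := by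
    intro D hD f hf
    rw [glue_dep r L (hD.trans hr) hf, ← sum_L (L D) hf]
    refine Finset.sum_congr rfl fun T hT => ?_
    exact (hex D T (Finset.mem_powerset.1 hT) hD _ (P325P.es_dep T f)).symm
  have hone : glue r L (fun _ => 1) = 1 := by
    rw [hglue2 ∅ (by simp) _ (fun _ _ _ => rfl)]
    exact (hpos ∅).one
  refine ⟨κ • meanL + (1 - κ) • glue r L, ⟨?_, ?_⟩, ?_, ?_⟩
  · rw [hE, hone, P325P.mean_const]
    ring
  · intro f D hD hf hf0
    rw [hE]
    obtain ⟨y0, hy0⟩ := Finite.exists_max f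
    have hM0 : 0 ≤ f y0 := hf0 y0
    have hΩ1 : (1 : ℝ) ≤ (Fintype.card Ω : ℝ) := by
      exact_mod_cast Fintype.card_pos
    have hmean0 : 0 ≤ P325P.mean f := P325P.mean_nonneg hf0
    have hM1 : f y0 ≤ (Fintype.card Ω : ℝ) ^ r * P325P.mean f := by
      have h1 := P325P.cm_le_card D hf0 y0
      rw [P325P.cm_of_dep hf (Finset.Subset.refl D)] at h1
      exact h1.trans (mul_le_mul_of_nonneg_right (pow_le_pow_right₀ hΩ1 hD) hmean0)
    have hterm : ∀ T ∈ D.powerset, L D (P325P.es T f) - 2 ^ r * f y0 * ξ ≤ L T (P325P.es T f) := by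
      intro T hT
      have hTD := Finset.mem_powerset.1 hT
      have hTc : T.card ≤ r := (Finset.card_le_card hTD).trans hD
      rcases hM0.eq_or_lt with h0 | h0
      · have hf00 : f = 0 := by
          funext y
          have h1 := hy0 y
          have h2 := hf0 y
          rw [← h0] at h1
          exact le_antisymm h1 h2
        have hes : P325P.es T f = 0 := by
          rw [hf00]
          exact (esL T).map_zero
        rw [hes, map_zero, map_zero, ← h0]
        simp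
      · have hc : 0 < (2 : ℝ) ^ r * f y0 := by positivity
        have h1 := hap D T hTD hD ((2 ^ r * f y0)⁻¹ • P325P.es T f) (by
          intro x y hxy
          show (2 ^ r * f y0)⁻¹ * P325P.es T f x = (2 ^ r * f y0)⁻¹ * P325P.es T f y
          rw [P325P.es_dep T f hxy]) (by
          intro z
          show |(2 ^ r * f y0)⁻¹ * P325P.es T f z| ≤ 1
          have h2 := P325P.abs_es_le T (f := f) (M := f y0) (fun x => by
            rw [abs_of_nonneg (hf0 x)]; exact hy0 x) z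
          have h3 : (2 : ℝ) ^ T.card ≤ 2 ^ r := pow_le_pow_right₀ (by norm_num) hTc
          rw [abs_mul, abs_of_pos (inv_pos.2 hc), inv_mul_le_iff₀ hc, mul_one]
          exact h2.trans (mul_le_mul_of_nonneg_right h3 hM0))
        rw [map_smul, map_smul, smul_eq_mul, smul_eq_mul, ← mul_sub, abs_mul,
          abs_of_pos (inv_pos.2 hc), inv_mul_le_iff₀ hc] at h1
        have h2 := (abs_le.1 h1).2
        linarith
    have hsum : L D f - 4 ^ r * f y0 * ξ ≤ glue r L f := by
      rw [glue_dep r L hD hf]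
      refine le_trans ?_ (Finset.sum_le_sum hterm)
      rw [Finset.sum_sub_distrib, sum_L (L D) hf, Finset.sum_const, Finset.card_powerset,
        nsmul_eq_mul]
      have h1 : ((2 ^ D.card : ℕ) : ℝ) ≤ 2 ^ r := by
        push_cast
        exact pow_le_pow_right₀ (by norm_num) hD
      have h2 : (4 : ℝ) ^ r = 2 ^ r * 2 ^ r := by
        rw [← mul_pow]; norm_num
      have h3 : (0 : ℝ) ≤ 2 ^ r * f y0 * ξ := by positivity
      have h4 := mul_le_mul_of_nonneg_right h1 h3
      rw [h2]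
      linarith
    have hLD : 0 ≤ L D f := (hpos D).nonneg f hf0
    have h5 : 4 ^ r * f y0 * ξ ≤ κ * P325P.mean f := by
      have h6 : 4 ^ r * f y0 * ξ ≤ 4 ^ r * ((Fintype.card Ω : ℝ) ^ r * P325P.mean f) * ξ := by
        gcongr
      have h7 := mul_le_mul_of_nonneg_right hsm hmean0
      calc 4 ^ r * f y0 * ξ ≤ 4 ^ r * ((Fintype.card Ω : ℝ) ^ r * P325P.mean f) * ξ := h6
        _ = 4 ^ r * (Fintype.card Ω : ℝ) ^ r * ξ * P325P.mean f := by ring
        _ ≤ κ * P325P.mean f := h7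
    have h8 : 0 ≤ 4 ^ r * f y0 * ξ := by positivity
    nlinarith
  · intro c h
    rw [hE]
    have hq0 : 0 ≤ P325P.mean (fun z : V → Ω => (c + ∑ p, h p (z p)) ^ 2) :=
      P325P.mean_nonneg fun z => sq_nonneg _
    have hdec : (fun z : V → Ω => (c + ∑ p, h p (z p)) ^ 2) =
        (c ^ 2) • (fun _ : V → Ω => (1 : ℝ)) + (2 * c) • ∑ p, (fun z : V → Ω => h p (z p)) +
          ∑ p, ∑ q, (fun z : V → Ω => h p (z p) * h q (z q)) := by
      funext z
      simp only [Pi.add_apply, Pi.smul_apply, smul_eq_mul, Finset.sum_apply]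
      rw [add_sq, sq (∑ p, h p (z p)), Finset.sum_mul_sum]
      ring
    have hg : glue r L (fun z : V → Ω => (c + ∑ p, h p (z p)) ^ 2) =
        c ^ 2 + 2 * c * ∑ p, L {p} (fun z => h p (z p)) +
          ∑ p, ∑ q, L {p, q} (fun z => h p (z p) * h q (z q)) := by
      rw [hdec, map_add, map_add, map_smul, map_smul, hone, map_sum, map_sum, smul_eq_mul,
        smul_eq_mul, mul_one]
      congr 1
      · congr 2
        refine Finset.sum_congr rfl fun p _ => ?_
        refine hglue2 {p} (by simp) _ ?_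
        intro x y hxy
        show h p (x p) = h p (y p)
        rw [hxy p (by simp)]
      · refine Finset.sum_congr rfl fun p _ => ?_
        rw [map_sum]
        refine Finset.sum_congr rfl fun q _ => ?_
        refine hglue2 {p, q} Finset.card_le_two _ ?_
        intro x y hxy
        show h p (x p) * h q (x q) = h p (y p) * h q (y q)
        rw [hxy p (by simp), hxy q (by simp)]
    rw [hg]
    have h1 := hpsd c h
    have h2 : 0 ≤ 1 - κ := by linarith
    positivity
  · intro p q f hf hf0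
    rw [hE, hglue2 {p, q} Finset.card_le_two f hf]
    have h1 : 0 ≤ P325P.mean f := P325P.mean_nonneg hf0
    nlinarith [mul_nonneg hκ0 h1]

end Pool.Agent.Lib.P325sdp
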