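import Pool.Agent.Lib.P325sdp.Defs

/-!
Module UnifSol (1.5h). The uniform law on the solutions of consistent alignment equations has consistent
marginals.
PROOF. al x x = 0 for x ∈ X (cocycle with x, x, x). (1) Sol X is nonempty: on the subtype of X, R is an equivalence relation
(Setoid); rep x = Quotient.out of the class of x; c x = al x (rep x) for x ∈ X, 0 outside. If R x x' then rep x =
rep x' = u and al x u = al x x' + al x' u, so c x = c x' + al x x'.
(2) Let H X = the functions s : B → G with s x = s x' for all x, x' ∈ X with R x x'. For c0 ∈ Sol X, s ↦ c0 + s is a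
bijection of H X with Sol X, and as Sol X ⊆ Sol X' it is also a bijection of H X' with Sol X'. H X ⊆ H X' is a
subgroup. For s ∈ H X' there is s~ ∈ H X with s~ = s on X': s~ x = s x' if x ∈ X and R x x' for some x' ∈ X' (well
defined: R is transitive on X), else 0; for x ∈ X' use R x x. Then
avg_{s ∈ H X'} F(c0 + s) = avg_{s ∈ H X'} avg_{h ∈ H X} F(c0 + s + h) (translation by h permutes H X') and for fixed s
avg_h F(c0 + s + h) = avg_h F(c0 + s~ + h) (F depends on X') = avg_h F(c0 + h) (translation by s~).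
-/

open scoped BigOperators

namespace Pool.Agent.Lib.P325sdp

namespace UnifSolAux

variable {B G : Type} [Fintype B] [AddCommGroup G] [Fintype G]

theorem mem_sol (R : B → B → Prop) (al : B → B → G) (X : Finset B) (c : B → G) :
    c ∈ sol R al X ↔ ∀ x ∈ X, ∀ x' ∈ X, R x x' → c x = c x' + al x x' := by
  classical
  unfold sol
  rw [Finset.mem_filter]
  exact ⟨fun h => h.2, fun h => ⟨Finset.mem_univ _, h⟩⟩

theorem avgL_apply {Z : Type} (s : Finset Z) (F : Z → ℝ) :
    avgL s F = (s.card : ℝ)⁻¹ * ∑ c ∈ s, F c := by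
  unfold avgL
  rw [LinearMap.smul_apply, LinearMap.sum_apply, smul_eq_mul]
  rfl

/-- the functions that are constant on the classes of `R` in `X` -/
noncomputable def H (G : Type) [Fintype G] (R : B → B → Prop) (X : Finset B) :
    Finset (B → G) := by
  classical
  exact Finset.univ.filter (fun s => ∀ x ∈ X, ∀ x' ∈ X, R x x' → s x = s x')

theorem mem_H (R : B → B → Prop) (X : Finset B) (s : B → G) :
    s ∈ H G R X ↔ ∀ x ∈ X, ∀ x' ∈ X, R x x' → s x = s x' := by
  classical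
  unfold H
  rw [Finset.mem_filter]
  exact ⟨fun h => h.2, fun h => ⟨Finset.mem_univ _, h⟩⟩

theorem zero_mem_H (R : B → B → Prop) (X : Finset B) : (0 : B → G) ∈ H G R X := by
  rw [mem_H]
  intro x _ x' _ _
  rfl

theorem add_mem_H {R : B → B → Prop} {X : Finset B} {s t : B → G} (hs : s ∈ H G R X)
    (ht : t ∈ H G R X) : s + t ∈ H G R X := by
  rw [mem_H] at hs ht ⊢
  intro x hx x' hx' h
  rw [Pi.add_apply, Pi.add_apply, hs x hx x' hx' h, ht x hx x' hx' h]

theorem neg_mem_H {R : B → B → Prop} {X : Finset B} {s : B → G} (hs : s ∈ H G R X) :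
    -s ∈ H G R X := by
  rw [mem_H] at hs ⊢
  intro x hx x' hx' h
  rw [Pi.neg_apply, Pi.neg_apply, hs x hx x' hx' h]

theorem H_mono {R : B → B → Prop} {X X' : Finset B} (hX : X' ⊆ X) {s : B → G}
    (hs : s ∈ H G R X) : s ∈ H G R X' := by
  rw [mem_H] at hs ⊢
  exact fun x hx x' hx' h => hs x (hX hx) x' (hX hx') h

theorem sum_trans {R : B → B → Prop} {X : Finset B} {t : B → G} (ht : t ∈ H G R X)
    (F : (B → G) → ℝ) : ∑ s ∈ H G R X, F (s + t) = ∑ s ∈ H G R X, F s := by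
  refine Finset.sum_nbij' (fun s => s + t) (fun s => s + -t) ?_ ?_ ?_ ?_ ?_
  · intro s hs
    exact add_mem_H hs ht
  · intro s hs
    exact add_mem_H hs (neg_mem_H ht)
  · intro s _
    simp
  · intro s _
    simp
  · intro s _
    rfl

theorem sum_sol {R : B → B → Prop} {al : B → B → G} {X : Finset B} {c0 : B → G}
    (hc : c0 ∈ sol R al X) (F : (B → G) → ℝ) :
    ∑ c ∈ sol R al X, F c = ∑ s ∈ H G R X, F (c0 + s) := by
  rw [mem_sol] at hc
  refine Finset.sum_nbij' (fun c => -c0 + c) (fun s => c0 + s) ?_ ?_ ?_ ?_ ?_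
  · intro c h
    rw [mem_sol] at h
    rw [mem_H]
    intro x hx x' hx' hR
    rw [Pi.add_apply, Pi.add_apply, Pi.neg_apply, Pi.neg_apply, h x hx x' hx' hR,
      hc x hx x' hx' hR]
    abel
  · intro s h
    rw [mem_H] at h
    rw [mem_sol]
    intro x hx x' hx' hR
    rw [Pi.add_apply, Pi.add_apply, h x hx x' hx' hR, hc x hx x' hx' hR]
    abel
  · intro c _
    simp
  · intro s _
    simp
  · intro c _
    simp

theorem card_sol {R : B → B → Prop} {al : B → B → G} {X : Finset B} {c0 : B → G}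
    (hc : c0 ∈ sol R al X) : ((sol R al X).card : ℝ) = ((H G R X).card : ℝ) := by
  have h := sum_sol hc (fun _ => 1)
  simpa using h

theorem exists_sol (R : B → B → Prop) (al : B → B → G) (X : Finset B)
    (hrefl : ∀ x ∈ X, R x x)
    (hsymm : ∀ x ∈ X, ∀ x' ∈ X, R x x' → R x' x)
    (htrans : ∀ x ∈ X, ∀ x' ∈ X, ∀ x'' ∈ X, R x x' → R x' x'' → R x x'')
    (hcoc : ∀ x ∈ X, ∀ x' ∈ X, ∀ x'' ∈ X, R x x' → R x' x'' → al x x'' = al x x' + al x' x'') :
    ∃ c, c ∈ sol R al X := by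
  classical
  set g : B → Finset B → G := fun x S => if h : S.Nonempty then al x h.choose else 0 with hg
  refine ⟨fun x => g x (X.filter (fun u => R x u)), ?_⟩
  rw [mem_sol]
  intro x hx x' hx' hR
  have hS : X.filter (fun u => R x u) = X.filter (fun u => R x' u) := by
    ext u
    rw [Finset.mem_filter, Finset.mem_filter]
    constructor
    · rintro ⟨hu, h⟩
      exact ⟨hu, htrans x' hx' x hx u hu (hsymm x hx x' hx' hR) h⟩
    · rintro ⟨hu, h⟩
      exact ⟨hu, htrans x hx x' hx' u hu hR h⟩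
  have hne : (X.filter (fun u => R x' u)).Nonempty :=
    ⟨x', Finset.mem_filter.2 ⟨hx', hrefl x' hx'⟩⟩
  obtain ⟨hu, hu'⟩ := Finset.mem_filter.1 hne.choose_spec
  have h1 : g x (X.filter (fun u => R x u)) = al x hne.choose := by
    rw [hS, hg]
    simp only [dif_pos hne]
  have h2 : g x' (X.filter (fun u => R x' u)) = al x' hne.choose := by
    rw [hg]
    simp only [dif_pos hne]
  show g x (X.filter (fun u => R x u)) = g x' (X.filter (fun u => R x' u)) + al x x'
  rw [h1, h2, hcoc x hx x' hx' _ hu hR hu', add_comm]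

theorem extend (R : B → B → Prop) (X X' : Finset B) (hX : X' ⊆ X)
    (hrefl : ∀ x ∈ X, R x x)
    (hsymm : ∀ x ∈ X, ∀ x' ∈ X, R x x' → R x' x)
    (htrans : ∀ x ∈ X, ∀ x' ∈ X, ∀ x'' ∈ X, R x x' → R x' x'' → R x x'')
    {s : B → G} (hs : s ∈ H G R X') :
    ∃ t ∈ H G R X, ∀ x ∈ X', t x = s x := by
  classical
  rw [mem_H] at hs
  refine ⟨fun x => if h : x ∈ X ∧ ∃ x', x' ∈ X' ∧ R x x' then s h.2.choose else 0, ?_, ?_⟩
  · rw [mem_H]
    intro x hx x1 hx1 hR
    by_cases h : x ∈ X ∧ ∃ x', x' ∈ X' ∧ R x x'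
    · obtain ⟨h1, h2⟩ := h.2.choose_spec
      have h' : x1 ∈ X ∧ ∃ x', x' ∈ X' ∧ R x1 x' :=
        ⟨hx1, _, h1, htrans x1 hx1 x hx _ (hX h1) (hsymm x hx x1 hx1 hR) h2⟩
      obtain ⟨h3, h4⟩ := h'.2.choose_spec
      simp only [dif_pos h, dif_pos h']
      refine hs _ h1 _ h3 ?_
      exact htrans _ (hX h1) x hx _ (hX h3) (hsymm x hx _ (hX h1) h2)
        (htrans x hx x1 hx1 _ (hX h3) hR h4)
    · have h' : ¬ (x1 ∈ X ∧ ∃ x', x' ∈ X' ∧ R x1 x') := by
        rintro ⟨_, x', h3, h4⟩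
        exact h ⟨hx, x', h3, htrans x hx x1 hx1 x' (hX h3) hR h4⟩
      simp only [dif_neg h, dif_neg h']
  · intro x hx
    have h : x ∈ X ∧ ∃ x', x' ∈ X' ∧ R x x' := ⟨hX hx, x, hx, hrefl x (hX hx)⟩
    obtain ⟨h1, h2⟩ := h.2.choose_spec
    simp only [dif_pos h]
    exact (hs x hx _ h1 h2).symm

end UnifSolAux

theorem unif_sol {B G : Type} [Fintype B] [AddCommGroup G] [Fintype G] (R : B → B → Prop)
    (al : B → B → G) (X X' : Finset B) (hX : X' ⊆ X) (hrefl : ∀ x ∈ X, R x x)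
    (hsymm : ∀ x ∈ X, ∀ x' ∈ X, R x x' → R x' x)
    (htrans : ∀ x ∈ X, ∀ x' ∈ X, ∀ x'' ∈ X, R x x' → R x' x'' → R x x'')
    (hcoc : ∀ x ∈ X, ∀ x' ∈ X, ∀ x'' ∈ X, R x x' → R x' x'' → al x x'' = al x x' + al x' x'') :
    (sol R al X).Nonempty ∧ ∀ F : (B → G) → ℝ, DependsOn F (X' : Set B) →
      avgL (sol R al X) F = avgL (sol R al X') F := by
  obtain ⟨c0, hc0⟩ := UnifSolAux.exists_sol R al X hrefl hsymm htrans hcoc
  refine ⟨⟨c0, hc0⟩, fun F hF => ?_⟩
  have hc0' : c0 ∈ sol R al X' := by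
    rw [UnifSolAux.mem_sol] at hc0 ⊢
    exact fun x hx x' hx' h => hc0 x (hX hx) x' (hX hx') h
  rw [UnifSolAux.avgL_apply, UnifSolAux.avgL_apply, UnifSolAux.card_sol hc0,
    UnifSolAux.card_sol hc0', UnifSolAux.sum_sol hc0, UnifSolAux.sum_sol hc0']
  have h1 : (0 : ℝ) < ((UnifSolAux.H G R X).card : ℝ) := by
    exact_mod_cast Finset.card_pos.2 ⟨0, UnifSolAux.zero_mem_H R X⟩
  have h2 : (0 : ℝ) < ((UnifSolAux.H G R X').card : ℝ) := by
    exact_mod_cast Finset.card_pos.2 ⟨0, UnifSolAux.zero_mem_H R X'⟩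
  have h3 : ((UnifSolAux.H G R X).card : ℝ) * ∑ s ∈ UnifSolAux.H G R X', F (c0 + s) =
      ∑ h ∈ UnifSolAux.H G R X, ∑ s ∈ UnifSolAux.H G R X', F (c0 + (s + h)) := by
    rw [← nsmul_eq_mul, ← Finset.sum_const]
    refine Finset.sum_congr rfl fun h hh => ?_
    exact (UnifSolAux.sum_trans (UnifSolAux.H_mono hX hh) (fun s => F (c0 + s))).symm
  have h4 : ((UnifSolAux.H G R X').card : ℝ) * ∑ s ∈ UnifSolAux.H G R X, F (c0 + s) =
      ∑ s ∈ UnifSolAux.H G R X', ∑ h ∈ UnifSolAux.H G R X, F (c0 + (s + h)) := by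
    rw [← nsmul_eq_mul, ← Finset.sum_const]
    refine Finset.sum_congr rfl fun s hs => ?_
    obtain ⟨t, ht, hts⟩ := UnifSolAux.extend R X X' hX hrefl hsymm htrans hs
    rw [← UnifSolAux.sum_trans ht (fun s => F (c0 + s))]
    refine Finset.sum_congr rfl fun h _ => ?_
    apply hF
    intro x hx
    have h5 := hts x (Finset.mem_coe.1 hx)
    rw [Pi.add_apply, Pi.add_apply, Pi.add_apply, Pi.add_apply, h5, add_comm (h x)]
  rw [Finset.sum_comm] at h4
  rw [← h3] at h4
  field_simp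
  linarith

end Pool.Agent.Lib.P325sdp
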